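import Mathlib.Topology.Sheaves.Presheaf
import Mathlib.Data.Int.Star
import Mathlib.Algebra.Order.Ring.Star
import Mathlib.Analysis.SpecificLimits.Normed
import Mathlib.Data.List.GetD
import Mathlib.Algebra.Ring.IsFormallyReal
import Mathlib.Combinatorics.SimpleGraph.Basic
import Mathlib.Data.Rat.Star
import Mathlib.RingTheory.PiTensorProduct
import Mathlib.Logic.Godel.GodelBetaFunction
import Mathlib.NumberTheory.SumFourSquares
import Mathlib.Tactic.Algebra.Basic
import Pool.Agent.MP_c33acd_lc.Frame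

-- ======== part 0: formerly Pool.Agent.MP_c33acd_lc.Enum
section MrgPart0

/-!
Arithmetic, definably enumerated sorts, lists and recursion.
-/

set_option autoImplicit false

namespace Pool.Agent.MP_c33acd_lc

variable {𝒟 : DefStr} [Cst 𝒟] [SN : Srt 𝒟 ℕ] [DAdd 𝒟 ℕ] [DMul 𝒟 ℕ]
variable {X Y Z : Type} [SX : Srt 𝒟 X] [SY : Srt 𝒟 Y] [SZ : Srt 𝒟 Z]

omit [Cst 𝒟] [DMul 𝒟 ℕ] in
@[fun_prop]
theorem DfF.le {f g : X → ℕ} (hf : DfF 𝒟 f) (hg : DfF 𝒟 g) : DfF 𝒟 (fun x => f x ≤ g x) :=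
  DfF.congr (P := fun x => ∃ c, f x + c = g x) (by fun_prop)
    (fun x => ⟨fun h => Nat.le.dest h, fun ⟨_, h⟩ => Nat.le.intro h⟩)

omit [Cst 𝒟] [DMul 𝒟 ℕ] in
@[fun_prop]
theorem DfF.lt {f g : X → ℕ} (hf : DfF 𝒟 f) (hg : DfF 𝒟 g) : DfF 𝒟 (fun x => f x < g x) :=
  DfF.congr (P := fun x => ¬ g x ≤ f x) (by fun_prop) (fun x => not_le.symm)

@[fun_prop]
theorem DfF.mod {f g : X → ℕ} (hf : DfF 𝒟 f) (hg : DfF 𝒟 g) : DfF 𝒟 (fun x => f x % g x) := by
  have h : DfF 𝒟 (fun p : ℕ × ℕ => p.1 % p.2) := by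
    refine DfF.of_rel (P := fun p => (p.1.2 = 0 ∧ p.2 = p.1.1) ∨
      (p.2 < p.1.2 ∧ ∃ q, p.1.1 = p.2 + p.1.2 * q)) (by fun_prop) ?_
    rintro ⟨a, b⟩ r
    simp only
    constructor
    · rintro rfl
      rcases Nat.eq_zero_or_pos b with rfl | hb
      · exact Or.inl ⟨rfl, Nat.mod_zero a⟩
      · exact Or.inr ⟨Nat.mod_lt a hb, a / b, (Nat.mod_add_div a b).symm⟩
    · rintro (⟨rfl, rfl⟩ | ⟨h, q, rfl⟩)
      · exact Nat.mod_zero _
      · rw [Nat.add_mul_mod_self_left, Nat.mod_eq_of_lt h]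
  exact h.comp (hf.mk hg)

/-- A sort is enumerated if it is the image of a definable functional relation on the naturals. -/
class Enum (𝒟 : DefStr) [Srt 𝒟 ℕ] (X : Type) [Srt 𝒟 X] : Prop where
  out : ∃ E : ℕ → X → Prop, DfF 𝒟 (fun p : ℕ × X => E p.1 p.2) ∧
    (∀ k a b, E k a → E k b → a = b) ∧ ∀ a, ∃ k, E k a

omit [Cst 𝒟] [DAdd 𝒟 ℕ] [DMul 𝒟 ℕ] in
theorem Enum.of_rel [Enum 𝒟 Y] (ρ : Y → X → Prop) (hρ : DfF 𝒟 (fun p : Y × X => ρ p.1 p.2))
    (func : ∀ y a b, ρ y a → ρ y b → a = b) (tot : ∀ a, ∃ y, ρ y a) : Enum 𝒟 X := by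
  obtain ⟨E, hE, hf, ht⟩ := Enum.out (𝒟 := 𝒟) (X := Y)
  refine ⟨⟨fun k a => ∃ y, E k y ∧ ρ y a, by fun_prop, ?_, ?_⟩⟩
  · rintro k a b ⟨y, h1, h2⟩ ⟨y', h3, h4⟩
    obtain rfl := hf _ _ _ h1 h3
    exact func _ _ _ h2 h4
  · intro a
    obtain ⟨y, hy⟩ := tot a
    obtain ⟨k, hk⟩ := ht y
    exact ⟨k, y, hk, hy⟩

omit [Cst 𝒟] [DAdd 𝒟 ℕ] [DMul 𝒟 ℕ] in
theorem Enum.of_surj [Enum 𝒟 Y] (f : Y → X) (hf : DfF 𝒟 f) (hs : Function.Surjective f) :
    Enum 𝒟 X :=
  Enum.of_rel (fun y a => f y = a) (by fun_prop) (fun _ _ _ h h' => h.symm.trans h') hs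

instance instEnumNat : Enum 𝒟 ℕ :=
  ⟨⟨fun k a => k = a, by fun_prop, fun _ _ _ h h' => h.symm.trans h', fun a => ⟨a, rfl⟩⟩⟩

instance instEnumProd [Enum 𝒟 X] [Enum 𝒟 Y] : Enum 𝒟 (X × Y) := by
  obtain ⟨E, hE, hf, ht⟩ := Enum.out (𝒟 := 𝒟) (X := X)
  obtain ⟨E', hE', hf', ht'⟩ := Enum.out (𝒟 := 𝒟) (X := Y)
  refine ⟨⟨fun k p => ∃ a b, k = Nat.pair a b ∧ E a p.1 ∧ E' b p.2, ?_, ?_, ?_⟩⟩
  · refine DfF.congr (P := fun p : ℕ × X × Y => ∃ a b : ℕ,
      ((a < b ∧ p.1 = b * b + a) ∨ (¬ a < b ∧ p.1 = a * a + a + b)) ∧ E a p.2.1 ∧ E' b p.2.2)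
      (by fun_prop) (fun p => ?_)
    refine exists_congr fun a => exists_congr fun b => and_congr_left fun _ => ?_
    unfold Nat.pair
    split_ifs with h <;> simp [h]
  · rintro k p q ⟨a, b, rfl, h1, h2⟩ ⟨a', b', h, h3, h4⟩
    obtain ⟨rfl, rfl⟩ := Nat.pair_eq_pair.1 h
    exact Prod.ext (hf _ _ _ h1 h3) (hf' _ _ _ h2 h4)
  · intro p
    obtain ⟨a, ha⟩ := ht p.1
    obtain ⟨b, hb⟩ := ht' p.2
    exact ⟨_, a, b, rfl, ha, hb⟩

theorem exists_listSrt (X : Type) [Srt 𝒟 X] [Enum 𝒟 X] :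
    ∃ _ : Srt 𝒟 (List X), DfF 𝒟 (fun l : List X => l.length) ∧
      DfF 𝒟 (fun p : List X × ℕ × X => p.1.getD p.2.1 p.2.2) ∧ Enum 𝒟 (List X) := by
  obtain ⟨E, hE, hf, ht⟩ := Enum.out (𝒟 := 𝒟) (X := X)
  let ρ : ℕ × ℕ × ℕ → List X → Prop := fun y l => l.length = y.1 ∧
    ∀ i (h : i < l.length), E (y.2.1 % ((i + 1) * y.2.2 + 1)) l[i]
  have func : ∀ y a b, ρ y a → ρ y b → a = b := by
    rintro y a b ⟨h1, h2⟩ ⟨h3, h4⟩
    refine List.ext_getElem (h1.trans h3.symm) (fun i hi hi' => hf _ _ _ (h2 i hi) (h4 i hi'))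
  have tot : ∀ a, ∃ y, ρ y a := by
    intro l
    choose c hc using ht
    refine ⟨(l.length, (Nat.unbeta (l.map c)).unpair.1, (Nat.unbeta (l.map c)).unpair.2),
      rfl, fun i hi => ?_⟩
    have := Nat.beta_unbeta_coe (l.map c) ⟨i, by simpa using hi⟩
    simp only [Nat.beta, Fin.getElem_fin, List.getElem_map] at this
    simp only [this]
    exact hc _
  have heq : DfF 𝒟 (fun p : (ℕ × ℕ × ℕ) × (ℕ × ℕ × ℕ) => ∃ a, ρ p.1 a ∧ ρ p.2 a) := by
    refine DfF.congr (P := fun p : (ℕ × ℕ × ℕ) × (ℕ × ℕ × ℕ) => p.1.1 = p.2.1 ∧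
      All fun i : ℕ => Imp (i < p.1.1) (∃ x, E (p.1.2.1 % ((i + 1) * p.1.2.2 + 1)) x ∧
        E (p.2.2.1 % ((i + 1) * p.2.2.2 + 1)) x)) (by fun_prop) ?_
    rintro ⟨y, y'⟩
    simp only [All, Imp]
    constructor
    · rintro ⟨l, ⟨h1, h2⟩, ⟨h3, h4⟩⟩
      exact ⟨h1.symm.trans h3, fun i hi => ⟨l[i]'(h1 ▸ hi), h2 i _, h4 i _⟩⟩
    · rintro ⟨h1, h2⟩
      choose x hx hx' using h2
      refine ⟨List.ofFn fun i : Fin y.1 => x i i.2, ⟨by simp, fun i hi => ?_⟩,
        ⟨by simp [h1], fun i hi => ?_⟩⟩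
      · simpa using hx i _
      · simpa using hx' i _
  obtain ⟨S, hS⟩ := exists_srt ρ func tot heq
  refine ⟨S, ?_, ?_, Enum.of_rel ρ hS func tot⟩
  · refine DfF.of_rel (P := fun p => ∃ y, ρ y p.1 ∧ y.1 = p.2) (by fun_prop) (fun l k => ?_)
    constructor
    · rintro rfl
      obtain ⟨y, hy⟩ := tot l
      exact ⟨y, hy, hy.1.symm⟩
    · rintro ⟨y, hy, rfl⟩
      exact hy.1
  · refine DfF.of_rel (P := fun p => ∃ y, ρ y p.1.1 ∧
      ((p.1.2.1 < y.1 ∧ E (y.2.1 % ((p.1.2.1 + 1) * y.2.2 + 1)) p.2) ∨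
        (¬ p.1.2.1 < y.1 ∧ p.1.2.2 = p.2))) (by fun_prop) ?_
    rintro ⟨l, i, d⟩ x
    simp only
    constructor
    · rintro rfl
      obtain ⟨y, hy⟩ := tot l
      refine ⟨y, hy, ?_⟩
      by_cases hi : i < y.1
      · refine Or.inl ⟨hi, ?_⟩
        rw [List.getD_eq_getElem _ _ (hy.1 ▸ hi)]
        exact hy.2 i _
      · refine Or.inr ⟨hi, ?_⟩
        rw [List.getD_eq_default _ _ (hy.1 ▸ not_lt.1 hi)]
    · rintro ⟨y, hy, ⟨hi, h⟩ | ⟨hi, rfl⟩⟩
      · rw [List.getD_eq_getElem _ _ (hy.1 ▸ hi)]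
        exact hf _ _ _ (hy.2 i _) h
      · rw [List.getD_eq_default _ _ (hy.1 ▸ not_lt.1 hi)]

noncomputable instance instSrtList (X : Type) [Srt 𝒟 X] [Enum 𝒟 X] : Srt 𝒟 (List X) :=
  (exists_listSrt X).choose

instance instEnumList (X : Type) [Srt 𝒟 X] [Enum 𝒟 X] : Enum 𝒟 (List X) :=
  (exists_listSrt X).choose_spec.2.2

@[fun_prop]
theorem DfF.length [Enum 𝒟 Y] {l : X → List Y} (hl : DfF 𝒟 l) :
    DfF 𝒟 (fun x => (l x).length) :=
  DfF.comp (exists_listSrt Y).choose_spec.1 hl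

@[fun_prop]
theorem DfF.getD [Enum 𝒟 Y] {l : X → List Y} {i : X → ℕ} {d : X → Y} (hl : DfF 𝒟 l)
    (hi : DfF 𝒟 i) (hd : DfF 𝒟 d) : DfF 𝒟 (fun x => (l x).getD (i x) (d x)) :=
  DfF.comp (exists_listSrt Y).choose_spec.2.1 (hl.mk (hi.mk hd))

instance instEnumPi [Enum 𝒟 X] [Nonempty X] (k : ℕ) : Enum 𝒟 (Fin k → X) := by
  obtain ⟨d⟩ := ‹Nonempty X›
  refine Enum.of_surj (fun (l : List X) (i : Fin k) => l.getD i d) (by fun_prop) (fun f => ?_)
  refine ⟨List.ofFn f, funext fun i => ?_⟩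
  simp [List.getD_eq_getElem?_getD]

@[fun_prop]
theorem DfF.mem [Enum 𝒟 Y] {l : X → List Y} {a : X → Y} (hl : DfF 𝒟 l) (ha : DfF 𝒟 a) :
    DfF 𝒟 (fun x => a x ∈ l x) := by
  refine DfF.congr (P := fun x => ∃ i, i < (l x).length ∧ (l x).getD i (a x) = a x)
    (by fun_prop) (fun x => ?_)
  rw [List.mem_iff_getElem]
  constructor
  · rintro ⟨i, hi, h⟩
    exact ⟨i, hi, by rw [List.getD_eq_getElem _ _ hi, h]⟩
  · rintro ⟨i, hi, h⟩
    exact ⟨i, hi, by rwa [List.getD_eq_getElem _ _ hi] at h⟩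

/-- Definition by recursion into an enumerated sort. -/
theorem DfF.recursion [Enum 𝒟 Y] {g : X → ℕ → Y} {F : X → ℕ → Y → Y} {y₀ : X → Y}
    (hF : DfF 𝒟 (fun p : X × ℕ × Y => F p.1 p.2.1 p.2.2)) (hy : DfF 𝒟 y₀)
    (h0 : ∀ x, g x 0 = y₀ x) (hs : ∀ x i, g x (i + 1) = F x i (g x i)) :
    DfF 𝒟 (fun p : X × ℕ => g p.1 p.2) := by
  refine DfF.of_rel (P := fun p => ∃ l : List Y, l.getD 0 p.2 = y₀ p.1.1 ∧
    (All fun i : ℕ => Imp (i < p.1.2) (l.getD (i + 1) p.2 = F p.1.1 i (l.getD i p.2))) ∧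
    l.getD p.1.2 p.2 = p.2) (by fun_prop) ?_
  rintro ⟨x, n⟩ y
  simp only [All, Imp]
  constructor
  · intro h
    have key : ∀ i, i ≤ n → (List.ofFn fun j : Fin (n + 1) => g x j).getD i y = g x i := by
      intro i hi
      rw [List.getD_eq_getElem _ _ (by simpa using Nat.lt_succ_of_le hi), List.getElem_ofFn]
    refine ⟨List.ofFn fun j : Fin (n + 1) => g x j, ?_, fun i hi => ?_, ?_⟩
    · rw [key 0 (Nat.zero_le _), h0]
    · rw [key _ hi, key _ hi.le, hs]
    · rw [key _ le_rfl, h]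
  · rintro ⟨l, h1, h2, h3⟩
    have key : ∀ i, i ≤ n → l.getD i y = g x i := by
      intro i
      induction i with
      | zero => intro _; rw [h1, h0]
      | succ i ih => intro hi; rw [h2 i hi, ih (Nat.le_of_succ_le hi), hs]
    rw [← key n le_rfl, h3]

@[fun_prop]
theorem DfF.pow [Monoid Y] [DMul 𝒟 Y] [Enum 𝒟 Y] {f : X → Y} {n : X → ℕ} (hf : DfF 𝒟 f)
    (hn : DfF 𝒟 n) : DfF 𝒟 (fun x => f x ^ n x) := by
  have h : DfF 𝒟 (fun p : Y × ℕ => p.1 ^ p.2) :=
    DfF.recursion (g := fun y i => y ^ i) (F := fun y _ z => z * y) (y₀ := fun _ => 1)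
      (by fun_prop) (by fun_prop) (fun y => pow_zero y) (fun y i => pow_succ y i)
  exact h.comp (hf.mk hn)

theorem DfF.foldl [Enum 𝒟 Y] [Enum 𝒟 Z] [Nonempty Z] {F : X → Y → Z → Y} {y₀ : X → Y}
    {l : X → List Z} (hF : DfF 𝒟 (fun p : X × Y × Z => F p.1 p.2.1 p.2.2)) (hy : DfF 𝒟 y₀)
    (hl : DfF 𝒟 l) : DfF 𝒟 (fun x => (l x).foldl (F x) (y₀ x)) := by
  classical
  obtain ⟨d⟩ := ‹Nonempty Z›
  let g : X → ℕ → Y := fun x i => Nat.rec (y₀ x) (fun i y => F x y ((l x).getD i d)) i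
  have hg : DfF 𝒟 (fun p : X × ℕ => g p.1 p.2) :=
    DfF.recursion (F := fun x i y => F x y ((l x).getD i d)) (y₀ := y₀) (by fun_prop) hy
      (fun _ => rfl) (fun _ _ => rfl)
  have key : ∀ x i, i ≤ (l x).length → g x i = ((l x).take i).foldl (F x) (y₀ x) := by
    intro x i
    induction i with
    | zero => intro _; rfl
    | succ i ih =>
      intro hi
      rw [List.take_add_one, List.foldl_append, ← ih (Nat.le_of_succ_le hi),
        List.getElem?_eq_getElem hi]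
      simp only [Option.toList_some, List.foldl_cons, List.foldl_nil]
      change F x (g x i) ((l x).getD i d) = _
      rw [List.getD_eq_getElem _ _ hi]
  refine DfF.congr' (f := fun x => g x (l x).length) (by fun_prop) (fun x => ?_)
  rw [key x _ le_rfl, List.take_length]

@[fun_prop]
theorem DfF.listProd [Monoid Y] [DMul 𝒟 Y] [Enum 𝒟 Y] {l : X → List Y} (hl : DfF 𝒟 l) :
    DfF 𝒟 (fun x => (l x).prod) := by
  have : Nonempty Y := ⟨1⟩
  refine DfF.congr' (DfF.foldl (F := fun _ a b => a * b) (y₀ := fun _ => 1) (by fun_prop)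
    (by fun_prop) hl) (fun x => List.prod_eq_foldl)

theorem DfF.mapSum [AddMonoid Y] [DAdd 𝒟 Y] [Enum 𝒟 Y] [Enum 𝒟 Z] [Nonempty Z]
    {l : X → List Z} {F : X → Z → Y} (hl : DfF 𝒟 l)
    (hF : DfF 𝒟 (fun p : X × Z => F p.1 p.2)) : DfF 𝒟 (fun x => ((l x).map (F x)).sum) := by
  refine DfF.congr' (DfF.foldl (F := fun x a b => a + F x b) (y₀ := fun _ => 0) (by fun_prop)
    (by fun_prop) hl) (fun x => ?_)
  rw [List.sum_eq_foldl, List.foldl_map]

theorem mem_closure_iff_list {Q : Type} [Group Q] (S : Set Q) (q : Q) :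
    q ∈ Subgroup.closure S ↔ ∃ l : List Q, (∀ x ∈ l, x ∈ S ∨ x⁻¹ ∈ S) ∧ l.prod = q := by
  constructor
  · intro h
    rw [← Subgroup.mem_toSubmonoid, Subgroup.closure_toSubmonoid] at h
    obtain ⟨l, hl, rfl⟩ := Submonoid.exists_list_of_mem_closure h
    exact ⟨l, fun x hx => by simpa using hl x hx, rfl⟩
  · rintro ⟨l, hl, rfl⟩
    refine Subgroup.list_prod_mem _ fun x hx => ?_
    rcases hl x hx with h | h
    · exact Subgroup.subset_closure h
    · exact (Subgroup.inv_mem_iff _).1 (Subgroup.subset_closure h)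

/-- Membership in a finitely generated subgroup, as a constant. -/
def InCl {Q κ : Type} [Group Q] (h : κ → Q) (q : Q) : Prop := q ∈ Subgroup.closure (Set.range h)

@[fun_prop]
theorem DfF.inCl [Group Y] [DMul 𝒟 Y] [Enum 𝒟 Y] {κ : Type} [Finite κ] {h : X → κ → Y}
    {q : X → Y} (hh : DfF 𝒟 h) (hq : DfF 𝒟 q) : DfF 𝒟 (fun x => InCl (h x) (q x)) := by
  refine DfF.congr (P := fun x => ∃ l : List Y, (All fun y : Y => Imp (y ∈ l)
    ((¬ AllF fun k => ¬ h x k = y) ∨ (¬ AllF fun k => ¬ h x k = y⁻¹))) ∧ l.prod = q x)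
    (by fun_prop) (fun x => ?_)
  simp only [InCl, mem_closure_iff_list, All, Imp, AllF, Set.mem_range, not_forall, not_not]

end Pool.Agent.MP_c33acd_lc

end MrgPart0

-- ======== part 1: formerly Pool.Agent.MP_c33acd_lc.Modl
section MrgPart1

/-!
Definability in a module over a group.
-/

set_option autoImplicit false

namespace Pool.Agent.MP_c33acd_lc

section Alg

variable {Q W : Type} [Group Q] [AddCommGroup W] [DistribMulAction Q W]

theorem geom (y : Q) (k : ℤ) (x : W) :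
    ∃ s z : W, y • s - s = y ^ k • x - x ∧ s - k • x = y • z - z := by
  induction k using Int.induction_on with
  | zero => exact ⟨0, 0, by simp, by simp⟩
  | succ k ih =>
    obtain ⟨s, z, h1, h2⟩ := ih
    refine ⟨s + y ^ (k : ℤ) • x, z + s, ?_, ?_⟩
    · rw [smul_add, smul_smul, ← zpow_one_add, add_comm (1 : ℤ)]
      linear_combination (norm := abel1) h1
    · rw [smul_add, add_smul, one_smul]
      linear_combination (norm := abel1) h2 - h1
  | pred k ih =>
    obtain ⟨s, z, h1, h2⟩ := ih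
    have h3 : y • (s - y ^ (-(k : ℤ) - 1) • x) - (s - y ^ (-(k : ℤ) - 1) • x) =
        y ^ (-(k : ℤ) - 1) • x - x := by
      rw [smul_sub, smul_smul, ← zpow_one_add, add_sub_cancel]
      linear_combination (norm := abel1) h1
    refine ⟨s - y ^ (-(k : ℤ) - 1) • x, z - (s - y ^ (-(k : ℤ) - 1) • x), h3, ?_⟩
    rw [smul_sub y z, sub_smul, one_smul]
    linear_combination (norm := abel1) h2 + h3

/-- Enough eigenfunctionals for the element c. -/
def SepF (c : Q) (W : Type) [AddCommGroup W] [DistribMulAction Q W] : Prop :=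
  ∀ a : W, a ≠ 0 → ∃ n : ℕ, 2 ≤ n ∧ ∃ ψ : W →+ ℚ, ψ a ≠ 0 ∧ (∀ b, ψ (c • b) = n * ψ b) ∧
    ∀ b, ∃ (j : ℕ) (z : ℤ), ψ b * n ^ j = z

theorem psi_pow {c : Q} {n : ℚ} {ψ : W →+ ℚ} (h : ∀ b, ψ (c • b) = n * ψ b) (j : ℕ) (b : W) :
    ψ (c ^ j • b) = n ^ j * ψ b := by
  induction j with
  | zero => simp
  | succ j ih => rw [pow_succ', mul_smul, h, ih, pow_succ', mul_assoc]

theorem SepF.inj {c : Q} (h : SepF c W) (j : ℕ) (w : W) (hw : c ^ (j + 1) • w = w) : w = 0 := by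
  by_contra hne
  obtain ⟨n, hn, ψ, h1, h2, -⟩ := h w hne
  have h3 := psi_pow h2 (j + 1) w
  rw [hw] at h3
  have h4 : (1 : ℚ) < (n : ℚ) ^ (j + 1) :=
    one_lt_pow₀ (by exact_mod_cast hn) (Nat.succ_ne_zero j)
  have h5 : ((n : ℚ) ^ (j + 1) - 1) * ψ w = 0 := by linear_combination -h3
  rcases mul_eq_zero.1 h5 with h6 | h6
  · linarith
  · exact h1 h6

theorem SepF.inter {c : Q} (h : SepF c W) (d : W) (hd : ∀ j : ℕ, ∃ z, d = c ^ (j + 1) • z - z) :
    d = 0 := by
  by_contra hne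
  obtain ⟨n, hn, ψ, h1, h2, h3⟩ := h d hne
  obtain ⟨j₀, z₀, h4⟩ := h3 d
  have hn0 : (n : ℚ) ≠ 0 := by
    have : (0 : ℚ) < n := by exact_mod_cast lt_of_lt_of_le two_pos hn
    exact this.ne'
  have hz₀ : z₀ ≠ 0 := by
    rintro rfl
    simp only [Int.cast_zero, mul_eq_zero, h1, false_or] at h4
    exact pow_ne_zero _ hn0 h4
  obtain ⟨z, hz⟩ := hd z₀.natAbs
  obtain ⟨i, u, h5⟩ := h3 z
  have h6 : ψ d = ((n : ℚ) ^ (z₀.natAbs + 1) - 1) * ψ z := by
    rw [hz, map_sub, psi_pow h2]; ring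
  have h7 : z₀ * (n : ℤ) ^ i = ((n : ℤ) ^ (z₀.natAbs + 1) - 1) * (u * (n : ℤ) ^ j₀) := by
    have : (z₀ : ℚ) * (n : ℚ) ^ i = ((n : ℚ) ^ (z₀.natAbs + 1) - 1) * (u * (n : ℚ) ^ j₀) := by
      rw [← h4, ← h5, h6]; ring
    exact_mod_cast this
  have hcop : IsCoprime ((n : ℤ) ^ (z₀.natAbs + 1) - 1) ((n : ℤ) ^ i) := by
    apply IsCoprime.pow_right
    exact ⟨-1, (n : ℤ) ^ z₀.natAbs, by ring⟩
  have hdvd : (n : ℤ) ^ (z₀.natAbs + 1) - 1 ∣ z₀ := hcop.dvd_of_dvd_mul_right ⟨_, h7⟩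
  have hle := Int.le_of_dvd (abs_pos.2 hz₀) ((dvd_abs _ _).2 hdvd)
  have h8 : z₀.natAbs + 1 < 2 ^ (z₀.natAbs + 1) := Nat.lt_two_pow_self
  have h9 : 2 ^ (z₀.natAbs + 1) ≤ n ^ (z₀.natAbs + 1) := Nat.pow_le_pow_left hn _
  have h10 : ((z₀.natAbs + 1 : ℕ) : ℤ) < ((n ^ (z₀.natAbs + 1) : ℕ) : ℤ) := by
    exact_mod_cast lt_of_lt_of_le h8 h9
  push_cast at h10
  omega

theorem SepF.eval {c : Q} (h : SepF c W) (d : W) (hd : ∀ n : ℕ, ∃ z, d = c • z - n • z) :
    d = 0 := by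
  by_contra hne
  obtain ⟨n, -, ψ, h1, h2, -⟩ := h d hne
  obtain ⟨z, hz⟩ := hd n
  apply h1
  rw [hz, map_sub, h2, map_nsmul]
  simp

/-- The action of a formal sum of group elements. -/
def act (l : List Q) (a : W) : W := (l.map fun q => q • a).sum

/-- The action of a formal sum of powers of c. -/
def cyc (c : Q) (l : List ℕ) (a : W) : W := (l.map fun j => c ^ j • a).sum

theorem act_sub (l : List Q) (a b : W) : act l (a - b) = act l a - act l b := by
  induction l with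
  | nil => simp [act]
  | cons q l ih =>
    simp only [act, List.map_cons, List.sum_cons] at ih ⊢
    rw [ih, smul_sub]; abel

theorem cyc_eval (c : Q) (n : ℕ) (l : List ℕ) (a : W) :
    ∃ z, cyc c l a - (l.map fun j => n ^ j).sum • a = c • z - n • z := by
  have key : ∀ j : ℕ, ∃ z, c ^ j • a - n ^ j • a = c • z - n • z := by
    intro j
    induction j with
    | zero => exact ⟨0, by simp⟩
    | succ j ih =>
      obtain ⟨z, hz⟩ := ih
      refine ⟨c ^ j • a + n • z, ?_⟩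
      rw [pow_succ', pow_succ', mul_smul, mul_smul, smul_add, smul_add, smul_comm c n z]
      have := congrArg (fun w => n • w) hz
      simp only [smul_sub] at this
      linear_combination (norm := abel1) this
  induction l with
  | nil => exact ⟨0, by simp [cyc]⟩
  | cons j l ih =>
    obtain ⟨z, hz⟩ := ih
    obtain ⟨z', hz'⟩ := key j
    refine ⟨z' + z, ?_⟩
    simp only [cyc, List.map_cons, List.sum_cons] at hz ⊢
    rw [add_smul, smul_add, smul_add]
    linear_combination (norm := abel1) hz + hz'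

/-- The subgroup spanned by the differences h i • b - b. -/
def augSub {K : ℕ} (h : Fin K → Q) (W : Type) [AddCommGroup W] [DistribMulAction Q W] :
    AddSubgroup W where
  carrier := {w | ∃ b : Fin K → W, w = ∑ i, (h i • b i - b i)}
  zero_mem' := ⟨0, by simp⟩
  add_mem' := by
    rintro _ _ ⟨b, rfl⟩ ⟨b', rfl⟩
    refine ⟨b + b', ?_⟩
    rw [← Finset.sum_add_distrib]
    refine Finset.sum_congr rfl fun i _ => ?_
    simp only [Pi.add_apply, smul_add]; abel
  neg_mem' := by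
    rintro _ ⟨b, rfl⟩
    refine ⟨-b, ?_⟩
    rw [← Finset.sum_neg_distrib]
    refine Finset.sum_congr rfl fun i _ => ?_
    simp only [Pi.neg_apply, smul_neg]; abel

theorem mem_augSub_of_inCl {K : ℕ} {h : Fin K → Q} {g : Q} (hg : InCl h g) (w : W) :
    g • w - w ∈ augSub h W := by
  induction hg using Subgroup.closure_induction generalizing w with
  | mem x hx =>
    obtain ⟨i, rfl⟩ := hx
    refine ⟨Pi.single i w, ?_⟩
    rw [Finset.sum_eq_single i]
    · simp
    · intro j _ hj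
      simp [hj]
    · simp
  | one => simp
  | mul x y _ _ hx hy =>
    have : (x * y) • w - w = (x • (y • w) - y • w) + (y • w - w) := by rw [mul_smul]; abel
    rw [this]
    exact add_mem (hx _) (hy _)
  | inv x _ hx =>
    have : x⁻¹ • w - w = -(x • (x⁻¹ • w) - x⁻¹ • w) := by rw [smul_inv_smul]; abel
    rw [this]
    exact neg_mem (hx _)

theorem act_sub_cyc_mem {K : ℕ} {h : Fin K → Q} (c : Q) (a : W) (l : List Q) (l' : List ℕ)
    (hl : List.Forall₂ (fun q j => InCl h (q * (c ^ j)⁻¹)) l l') :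
    act l a - cyc c l' a ∈ augSub h W := by
  induction hl with
  | nil => simp [act, cyc]
  | @cons q j l l' h1 _ ih =>
    have h2 := mem_augSub_of_inCl h1 (c ^ j • a)
    rw [smul_smul, inv_mul_cancel_right] at h2
    have := add_mem h2 ih
    simp only [act, cyc, List.map_cons, List.sum_cons] at this ⊢
    convert this using 1
    abel

/-- Separation by boundedly generated subgroups with a cyclic set of coset representatives. -/
def SepH (c : Q) (K : ℕ) (W : Type) [AddCommGroup W] [DistribMulAction Q W] : Prop :=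
  ∀ d : W, d ≠ 0 → ∃ h : Fin K → Q, (∀ q, ∃ j : ℕ, InCl h (q * (c ^ j)⁻¹)) ∧ d ∉ augSub h W

/-- Finite rank. -/
def FinRank (Q W : Type) [Group Q] [AddCommGroup W] [DistribMulAction Q W] : Prop :=
  ∃ (k : ℕ) (a : Fin k → W), ∀ w : W, ∃ (l l' : List Q) (m m' : Fin k → List Q),
    (∀ v : W, act l v = act l' v → v = 0) ∧
      act l w + ∑ i, act (m' i) (a i) = act l' w + ∑ i, act (m i) (a i)

end Alg

variable {𝒟 : DefStr} [Cst 𝒟]
variable {Q W : Type} [Group Q] [AddCommGroup W] [DistribMulAction Q W]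
variable [Srt 𝒟 Q] [Srt 𝒟 W] [DMul 𝒟 Q] [DAdd 𝒟 W] [DSMul 𝒟 Q W]

theorem exists_int_srt (c : Q) (hinj : ∀ w : W, c • w = w → w = 0) (ψ : W →+ ℤ)
    (hψ : ∀ w, ψ (c • w) = ψ w) (a₀ : W) (ha : ψ a₀ ≠ 0)
    (hz : DfF 𝒟 (fun q : Q => q ∈ Subgroup.zpowers c)) :
    ∃ _ : Srt 𝒟 ℤ, DAdd 𝒟 ℤ ∧ DMul 𝒟 ℤ ∧ DfF 𝒟 (fun k : ℤ => c ^ k) := by
  have huniq : ∀ (k : ℤ) (x s : W), c • s - s = c ^ k • x - x → ψ s = k * ψ x := by
    intro k x s hs
    obtain ⟨s', z, h1, h2⟩ := geom c k x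
    have : s - s' = 0 := hinj _ (by rw [smul_sub]; linear_combination (norm := abel1) hs - h1)
    obtain rfl := sub_eq_zero.1 this
    have h3 := congrArg ψ h2
    rw [map_sub, map_sub, hψ, map_zsmul] at h3
    simp only [smul_eq_mul] at h3
    linear_combination h3
  have hpi : ∀ k l : ℤ, c ^ k = c ^ l → k = l := by
    intro k l h
    obtain ⟨s, z, h1, -⟩ := geom c k a₀
    have h2 := huniq k a₀ s h1
    have h3 := huniq l a₀ s (h ▸ h1)
    exact mul_right_cancel₀ ha (h2.symm.trans h3)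
  obtain ⟨S, hS⟩ := exists_srt (𝒟 := 𝒟) (fun (q : Q) (k : ℤ) => c ^ k = q)
    (fun q k l h h' => hpi _ _ (h.trans h'.symm)) (fun k => ⟨_, rfl⟩) (by
      refine DfF.congr (P := fun p : Q × Q => p.1 ∈ Subgroup.zpowers c ∧ p.1 = p.2)
        (DfF.and (DfF.comp hz (by fun_prop)) (by fun_prop)) (fun p => ?_)
      rw [Subgroup.mem_zpowers_iff]
      constructor
      · rintro ⟨k, h1, h2⟩
        exact ⟨⟨k, h1⟩, h1.symm.trans h2⟩
      · rintro ⟨⟨k, h1⟩, h2⟩
        exact ⟨k, h1, h1.trans h2⟩)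
  obtain ⟨e, he⟩ : ∃ e : ℤ → Q, ∀ k, e k = c ^ k := ⟨_, fun _ => rfl⟩
  have hp : DfF 𝒟 e := by
    refine DfF.of_rel (P := fun p : ℤ × Q => c ^ p.1 = p.2)
      (DfF.comp (g := fun p : ℤ × Q => (p.2, p.1)) hS (by fun_prop)) (fun k q => by rw [he])
  refine ⟨S, ⟨?_⟩, ⟨?_⟩, hp.congr' fun k => (he k).symm⟩
  · refine DfF.of_rel (P := fun p => e p.1.1 * e p.1.2 = e p.2) (by fun_prop) ?_
    rintro ⟨k, l⟩ m
    simp only [he, ← zpow_add]
    exact ⟨fun h => by rw [h], hpi _ _⟩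
  · refine DfF.of_rel (P := fun p => ∃ s s' t z : W, c • s - s = e p.1.2 • a₀ - a₀ ∧
      c • s' - s' = e p.1.1 • s - s ∧ c • t - t = e p.2 • a₀ - a₀ ∧ s' - t = c • z - z)
      (by fun_prop) ?_
    rintro ⟨k, l⟩ m
    simp only [he]
    constructor
    · rintro rfl
      obtain ⟨s, z₁, h1, h2⟩ := geom c l a₀
      obtain ⟨s', z₂, h3, h4⟩ := geom c k s
      obtain ⟨t, z₃, h5, h6⟩ := geom c (k * l) a₀
      refine ⟨s, s', t, z₂ + k • z₁ - z₃, h1, h3, h5, ?_⟩
      have h7 := congrArg (fun w => k • w) h2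
      simp only [smul_sub, smul_smul] at h7
      rw [smul_sub, smul_add, smul_comm c k z₁]
      linear_combination (norm := abel1) h4 + h7 - h6
    · rintro ⟨s, s', t, z, h1, h2, h3, h4⟩
      have h5 := huniq _ _ _ h1
      have h6 := huniq _ _ _ h2
      have h7 := huniq _ _ _ h3
      have h8 := congrArg ψ h4
      rw [map_sub, map_sub, hψ, h6, h5, h7] at h8
      apply mul_right_cancel₀ ha
      linear_combination h8

omit [Cst 𝒟] in
theorem exists_nat_srt [Srt 𝒟 ℤ] [DAdd 𝒟 ℤ] [DMul 𝒟 ℤ] :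
    ∃ _ : Srt 𝒟 ℕ, DAdd 𝒟 ℕ ∧ DMul 𝒟 ℕ ∧ Enum 𝒟 ℤ := by
  obtain ⟨S, hS⟩ := exists_srt (𝒟 := 𝒟) (fun (z : ℤ) (k : ℕ) => (k : ℤ) = z)
    (fun z k l h h' => by exact_mod_cast h.trans h'.symm) (fun k => ⟨_, rfl⟩) (by
      refine DfF.congr (P := fun p : ℤ × ℤ => (∃ a b c d : ℤ,
        a * a + b * b + c * c + d * d = p.1) ∧ p.1 = p.2) (by fun_prop) (fun p => ?_)
      constructor
      · rintro ⟨k, h1, h2⟩
        obtain ⟨a, b, c, d, h⟩ := Nat.sum_four_squares k
        refine ⟨⟨a, b, c, d, ?_⟩, h1.symm.trans h2⟩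
        rw [← h1, ← h]; push_cast; ring
      · rintro ⟨⟨a, b, c, d, h1⟩, h2⟩
        have h3 : 0 ≤ p.1 := by rw [← h1]; nlinarith
        exact ⟨p.1.toNat, Int.toNat_of_nonneg h3, (Int.toNat_of_nonneg h3).trans h2⟩)
  obtain ⟨e, he⟩ : ∃ e : ℕ → ℤ, ∀ k, e k = k := ⟨_, fun _ => rfl⟩
  have hp : DfF 𝒟 e := by
    refine DfF.of_rel (P := fun p : ℕ × ℤ => (p.1 : ℤ) = p.2)
      (DfF.comp (g := fun p : ℕ × ℤ => (p.2, p.1)) hS (by fun_prop)) (fun k q => by rw [he])
  have hadd : DAdd 𝒟 ℕ := by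
    refine ⟨DfF.of_rel (P := fun p => e p.1.1 + e p.1.2 = e p.2) (by fun_prop) ?_⟩
    rintro ⟨k, l⟩ m
    simp only [he]
    exact_mod_cast Iff.rfl
  have hmul : DMul 𝒟 ℕ := by
    refine ⟨DfF.of_rel (P := fun p => e p.1.1 * e p.1.2 = e p.2) (by fun_prop) ?_⟩
    rintro ⟨k, l⟩ m
    simp only [he]
    exact_mod_cast Iff.rfl
  refine ⟨S, hadd, hmul, ⟨⟨fun k z => (z + z = e k) ∨ (¬ (∃ u, u + u = e k) ∧
    ∃ o, o * o = o ∧ ¬ o + o = o ∧ z + z + e k + o = z - z), by fun_prop, ?_, ?_⟩⟩⟩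
  · simp only [he]
    rintro k a b (h1 | ⟨h1, o, h2, h3, h4⟩) (h5 | ⟨h5, o', h6, h7, h8⟩)
    · omega
    · exact absurd ⟨a, h1⟩ h5
    · exact absurd ⟨b, h5⟩ h1
    · obtain rfl : o = 1 := by
        have : o ≠ 0 := by omega
        exact mul_left_cancel₀ this (by rw [h2, mul_one])
      obtain rfl : o' = 1 := by
        have : o' ≠ 0 := by omega
        exact mul_left_cancel₀ this (by rw [h6, mul_one])
      omega
  · simp only [he]
    intro z
    rcases le_or_gt 0 z with h | h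
    · exact ⟨(z + z).toNat, Or.inl (by omega)⟩
    · refine ⟨(-(z + z) - 1).toNat, Or.inr ⟨?_, 1, by simp, by simp, by omega⟩⟩
      rintro ⟨u, hu⟩
      omega

variable [Srt 𝒟 ℕ] [DAdd 𝒟 ℕ] [DMul 𝒟 ℕ] [Enum 𝒟 Q]

theorem dsmul_nat {c : Q} (h : SepF c W) : DSMul 𝒟 ℕ W := by
  refine ⟨DfF.of_rel (P := fun p => All fun j : ℕ => ∃ s z : W,
    c ^ (j + 1) • s - s = (c ^ (j + 1)) ^ p.1.1 • p.1.2 - p.1.2 ∧
      s - p.2 = c ^ (j + 1) • z - z) (by fun_prop) ?_⟩
  rintro ⟨k, a⟩ b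
  simp only [All]
  constructor
  · rintro rfl j
    obtain ⟨s, z, h1, h2⟩ := geom (c ^ (j + 1)) (k : ℤ) a
    exact ⟨s, z, by simpa using h1, by simpa using h2⟩
  · intro H
    refine sub_eq_zero.1 (h.inter _ fun j => ?_)
    obtain ⟨s, z, h1, h2⟩ := H j
    obtain ⟨s', z', h3, h4⟩ := geom (c ^ (j + 1)) (k : ℤ) a
    rw [zpow_natCast] at h3
    rw [natCast_zsmul] at h4
    have : s - s' = 0 := h.inj j _ (by rw [smul_sub]; linear_combination (norm := abel1) h1 - h3)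
    obtain rfl := sub_eq_zero.1 this
    refine ⟨z - z', ?_⟩
    rw [smul_sub]
    linear_combination (norm := abel1) h2 - h4

theorem dfF_cyc {c : Q} (h : SepF c W) : DfF 𝒟 (fun p : List ℕ × W => cyc c p.1 p.2) := by
  have := dsmul_nat (𝒟 := 𝒟) h
  obtain ⟨ev, hev⟩ : ∃ ev : ℕ → List ℕ → ℕ, ∀ n l, ev n l = (l.map fun j => n ^ j).sum :=
    ⟨_, fun _ _ => rfl⟩
  have hev' : DfF 𝒟 (fun p : ℕ × List ℕ => ev p.1 p.2) :=
    DfF.congr' (DfF.mapSum (l := fun p : ℕ × List ℕ => p.2) (F := fun p j => p.1 ^ j)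
      (by fun_prop) (by fun_prop)) (fun p => hev _ _)
  refine DfF.of_rel (P := fun p => All fun n : ℕ => ∃ z : W,
    p.2 - ev n p.1.1 • p.1.2 = c • z - n • z) (by fun_prop) ?_
  rintro ⟨l, a⟩ b
  simp only [All, hev]
  constructor
  · rintro rfl n
    exact cyc_eval c n l a
  · intro H
    refine (sub_eq_zero.1 (h.eval _ fun n => ?_)).symm
    obtain ⟨z, hz⟩ := H n
    obtain ⟨z', hz'⟩ := cyc_eval c n l a
    refine ⟨z - z', ?_⟩
    rw [smul_sub, smul_sub]
    linear_combination (norm := abel1) hz - hz'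

theorem dfF_act {c : Q} {K : ℕ} (h : SepF c W) (hH : SepH c K W) :
    DfF 𝒟 (fun p : List Q × W => act p.1 p.2) := by
  have hc := dfF_cyc (𝒟 := 𝒟) h
  refine DfF.of_rel (P := fun p => All fun g : Fin K → Q => All fun l' : List ℕ =>
    Imp (p.1.1.length = l'.length ∧ All fun i : ℕ => Imp (i < p.1.1.length)
      (InCl g (p.1.1.getD i 1 * (c ^ l'.getD i 0)⁻¹)))
      (∃ b : Fin K → W, p.2 - cyc c l' p.1.2 = ∑ i, (g i • b i - b i))) (by fun_prop) ?_
  rintro ⟨l, a⟩ b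
  simp only [All, Imp]
  have hF : ∀ (g : Fin K → Q) (l' : List ℕ), (l.length = l'.length ∧ ∀ i, i < l.length →
      InCl g (l.getD i 1 * (c ^ l'.getD i 0)⁻¹)) ↔
      List.Forall₂ (fun q j => InCl g (q * (c ^ j)⁻¹)) l l' := by
    intro g l'
    rw [List.forall₂_iff_get]
    refine and_congr_right fun hl => ⟨fun H i h₁ h₂ => ?_, fun H i h₁ => ?_⟩
    · have := H i h₁
      rwa [List.getD_eq_getElem _ _ h₁, List.getD_eq_getElem _ _ h₂] at this
    · rw [List.getD_eq_getElem _ _ h₁, List.getD_eq_getElem _ _ (hl ▸ h₁)]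
      exact H i h₁ (hl ▸ h₁)
  simp only [hF]
  constructor
  · rintro rfl g l' hl
    exact act_sub_cyc_mem c a l l' hl
  · intro H
    by_contra hne
    obtain ⟨g, hg, hd⟩ := hH (act l a - b) (sub_ne_zero.2 hne)
    choose j hj using hg
    have hl : List.Forall₂ (fun q j => InCl g (q * (c ^ j)⁻¹)) l (l.map j) := by
      rw [List.forall₂_map_right_iff]
      exact List.forall₂_same.2 fun q _ => hj q
    have h1 : b - cyc c (l.map j) a ∈ augSub g W := H g _ hl
    have h2 := sub_mem (act_sub_cyc_mem c a l _ hl) h1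
    rw [sub_sub_sub_cancel_right] at h2
    exact hd h2

theorem enum_module {c : Q} {K : ℕ} (h : SepF c W) (hH : SepH c K W) (hR : FinRank Q W) :
    Enum 𝒟 W := by
  have ha := dfF_act (𝒟 := 𝒟) h hH
  obtain ⟨k, a, hk⟩ := hR
  refine Enum.of_rel (Y := (List Q × List Q) × (Fin k → List Q) × (Fin k → List Q))
    (fun y w => (All fun v : W => Imp (act y.1.1 v = act y.1.2 v) (v = 0)) ∧
      act y.1.1 w + ∑ i, act (y.2.2 i) (a i) = act y.1.2 w + ∑ i, act (y.2.1 i) (a i))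
    (by fun_prop) ?_ ?_
  · rintro y w w' ⟨h1, h2⟩ ⟨-, h3⟩
    refine sub_eq_zero.1 (h1 _ ?_)
    rw [act_sub, act_sub]
    linear_combination (norm := abel1) h2 - h3
  · intro w
    obtain ⟨l, l', m, m', h1, h2⟩ := hk w
    exact ⟨((l, l'), m, m'), h1, h2⟩

end Pool.Agent.MP_c33acd_lc

end MrgPart1

-- ======== part 2: formerly Pool.Agent.MP_c33acd_lc.Ring
section MrgPart2

/-!
Submodules of free modules over integral group rings.
-/

set_option autoImplicit false

namespace Pool.Agent.MP_c33acd_lc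

open Finset

/-- The integral group ring. -/
abbrev GR (Q : Type) [Group Q] : Type := MonoidAlgebra ℤ Q

variable {Q : Type} [Group Q]

/-- A group element in the group ring. -/
noncomputable def gr : Q →* GR Q := MonoidAlgebra.of ℤ Q

theorem gr_apply (q : Q) : gr q = MonoidAlgebra.single q 1 := rfl

theorem gr_injective : Function.Injective (gr : Q → GR Q) := MonoidAlgebra.of_injective

/-- The additive functional with given values on group elements. -/
noncomputable def wt {A : Type} [CommRing A] (w : Q → A) : GR Q →+ A :=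
  MonoidAlgebra.liftNC (Int.castAddHom A) w

theorem wt_single {A : Type} [CommRing A] (w : Q → A) (q : Q) (k : ℤ) :
    wt w (MonoidAlgebra.single q k) = k * w q := by
  simp [wt]

theorem wt_gr {A : Type} [CommRing A] (w : Q → A) (q : Q) : wt w (gr q) = w q := by
  rw [gr_apply, wt_single]; simp

theorem wt_one {A : Type} [CommRing A] (w : Q → A) : wt w 1 = w 1 := by
  rw [← map_one gr, wt_gr]

theorem wt_eq_sum {A : Type} [CommRing A] (w : Q → A) (r : GR Q) :
    wt w r = ∑ q ∈ r.coeff.support, (r.coeff q : A) * w q := by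
  conv_lhs => rw [← MonoidAlgebra.sum_coeff_single r, Finsupp.sum, map_sum]
  exact Finset.sum_congr rfl fun q _ => wt_single w q _

theorem wt_gr_mul {A : Type} [CommRing A] (w : Q → A) (g : Q) (t : A)
    (h : ∀ q, w (g * q) = t * w q) (r : GR Q) : wt w (gr g * r) = t * wt w r := by
  induction r using MonoidAlgebra.induction_linear with
  | zero => simp
  | add x y hx hy => rw [mul_add, map_add, map_add, hx, hy, mul_add]
  | single q k => rw [gr_apply, MonoidAlgebra.single_mul_single, wt_single, wt_single, h, one_mul]; ring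

noncomputable instance instAct {n : ℕ} (V : Submodule (GR Q) (Fin n → GR Q)) :
    DistribMulAction Q V :=
  DistribMulAction.compHom V gr

theorem smul_def' {n : ℕ} {V : Submodule (GR Q) (Fin n → GR Q)} (q : Q) (v : V) :
    q • v = gr q • v := rfl

theorem smul_coe {n : ℕ} {V : Submodule (GR Q) (Fin n → GR Q)} (q : Q) (v : V) :
    ((q • v : V) : Fin n → GR Q) = gr q • (v : Fin n → GR Q) := rfl

theorem smul_coe_apply {n : ℕ} {V : Submodule (GR Q) (Fin n → GR Q)} (q : Q) (v : V) (i : Fin n) :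
    ((q • v : V) : Fin n → GR Q) i = gr q * (v : Fin n → GR Q) i := rfl

/-- A coordinate followed by a functional. -/
noncomputable def coordWt {n : ℕ} (V : Submodule (GR Q) (Fin n → GR Q)) {A : Type} [CommRing A]
    (w : Q → A) (i : Fin n) : V →+ A where
  toFun v := wt w ((v : Fin n → GR Q) i)
  map_zero' := by simp
  map_add' u v := by simp

theorem coordWt_apply {n : ℕ} (V : Submodule (GR Q) (Fin n → GR Q)) {A : Type} [CommRing A]
    (w : Q → A) (i : Fin n) (v : V) : coordWt V w i v = wt w ((v : Fin n → GR Q) i) := rfl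

theorem exists_coord {n : ℕ} {V : Submodule (GR Q) (Fin n → GR Q)} {a : V} (ha : a ≠ 0) :
    ∃ i q, q ∈ ((a : Fin n → GR Q) i).coeff.support := by
  by_contra h
  push Not at h
  apply ha
  ext i q
  simpa using h i q

theorem laurent_ne_zero {ι : Type} (S : Finset ι) (e : ι → ℤ) (he : Set.InjOn e S) (a : ι → ℤ)
    {i₀ : ι} (hi : i₀ ∈ S) (ha : a i₀ ≠ 0) :
    ∃ n : ℕ, 2 ≤ n ∧ ∑ i ∈ S, (a i : ℚ) * (n : ℚ) ^ e i ≠ 0 := by
  by_contra H
  push Not at H
  let χ : S → (Multiplicative ℕ →* ℚ) := fun i => powersHom ℚ ((2 : ℚ) ^ e i)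
  have hχ : Function.Injective χ := by
    intro i j hij
    have h1 : (2 : ℚ) ^ e i = (2 : ℚ) ^ e j := (powersHom ℚ).injective hij
    have h2 : e i = e j := zpow_right_injective₀ (by norm_num) (by norm_num) h1
    exact Subtype.ext (he i.2 j.2 h2)
  have hli := (linearIndependent_monoidHom (Multiplicative ℕ) ℚ).comp χ hχ
  rw [Fintype.linearIndependent_iff] at hli
  have h3 := hli (fun i => (a i : ℚ) * 2 ^ e i) (by
    funext m
    have h4 := H (2 ^ (m.toAdd + 1)) (by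
      calc 2 = 2 ^ 1 := by norm_num
        _ ≤ 2 ^ (m.toAdd + 1) := Nat.pow_le_pow_right (by norm_num) (by omega))
    rw [← Finset.sum_coe_sort] at h4
    simp only [Function.comp_apply, Finset.sum_apply, Pi.smul_apply, smul_eq_mul, Pi.zero_apply]
    rw [← h4]
    refine Finset.sum_congr rfl fun i _ => ?_
    simp only [χ, powersHom_apply]
    push_cast
    rw [← zpow_natCast, ← zpow_natCast, ← zpow_mul, ← zpow_mul, mul_assoc,
      ← zpow_add₀ (by norm_num)]
    congr 2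
    push_cast
    ring) ⟨i₀, hi⟩
  simp only [mul_eq_zero, Int.cast_eq_zero, ha, false_or] at h3
  exact zpow_ne_zero _ (by norm_num) h3

theorem sepF_submodule {n : ℕ} (V : Submodule (GR Q) (Fin n → GR Q)) (c : Q)
    (hc : ∀ k l : ℤ, c ^ k = c ^ l → k = l) : SepF c V := by
  classical
  intro a ha
  obtain ⟨i, q₀, hq₀⟩ := exists_coord ha
  set r : GR Q := (a : Fin n → GR Q) i with hr
  let e : Q → ℤ := fun q => if h : ∃ j : ℤ, q = c ^ j * q₀ then h.choose else 0
  have he : ∀ j : ℤ, e (c ^ j * q₀) = j := by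
    intro j
    have h : ∃ j' : ℤ, c ^ j * q₀ = c ^ j' * q₀ := ⟨j, rfl⟩
    simp only [e, dif_pos h]
    exact (hc _ _ (mul_right_cancel h.choose_spec)).symm
  let S : Finset Q := r.coeff.support.filter fun q => ∃ j : ℤ, q = c ^ j * q₀
  have hinj : Set.InjOn e S := by
    intro q hq q' hq' h
    obtain ⟨j, rfl⟩ := (Finset.mem_filter.1 hq).2
    obtain ⟨j', rfl⟩ := (Finset.mem_filter.1 hq').2
    rw [he, he] at h
    rw [h]
  obtain ⟨m, hm, hne⟩ := laurent_ne_zero S e hinj (fun q => r.coeff q) (i₀ := q₀)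
    (Finset.mem_filter.2 ⟨hq₀, 0, by simp⟩) (Finsupp.mem_support_iff.1 hq₀)
  have hm0 : (m : ℚ) ≠ 0 := by
    have : (0 : ℚ) < m := by exact_mod_cast lt_of_lt_of_le two_pos hm
    exact this.ne'
  let w : Q → ℚ := fun q => if ∃ j : ℤ, q = c ^ j * q₀ then (m : ℚ) ^ e q else 0
  have hw : ∀ q, w (c * q) = m * w q := by
    intro q
    by_cases h : ∃ j : ℤ, q = c ^ j * q₀
    · obtain ⟨j, rfl⟩ := h
      have h1 : c * (c ^ j * q₀) = c ^ (1 + j) * q₀ := by rw [zpow_one_add, mul_assoc]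
      simp only [w]
      rw [h1, if_pos ⟨_, rfl⟩, if_pos ⟨_, rfl⟩, he, he, zpow_one_add₀ hm0]
    · have h' : ¬ ∃ j : ℤ, c * q = c ^ j * q₀ := by
        rintro ⟨j, hj⟩
        refine h ⟨-1 + j, ?_⟩
        rw [zpow_add, mul_assoc, ← hj]
        simp
      simp only [w]
      rw [if_neg h, if_neg h', mul_zero]
  refine ⟨m, hm, coordWt V w i, ?_, fun b => ?_, fun b => ?_⟩
  · rw [coordWt_apply, ← hr, wt_eq_sum]
    simp only [w, mul_ite, mul_zero]
    rwa [← Finset.sum_filter]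
  · rw [coordWt_apply, coordWt_apply, smul_coe_apply, wt_gr_mul w c m hw]
  · rw [coordWt_apply]
    generalize (b : Fin n → GR Q) i = s
    induction s using MonoidAlgebra.induction_linear with
    | zero => exact ⟨0, 0, by simp⟩
    | add x y hx hy =>
      obtain ⟨j, z, h1⟩ := hx
      obtain ⟨j', z', h2⟩ := hy
      refine ⟨j + j', z * m ^ j' + z' * m ^ j, ?_⟩
      rw [map_add, pow_add]
      push_cast
      rw [← h1, ← h2]
      ring
    | single q k =>
      rw [wt_single]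
      simp only [w]
      split_ifs
      · refine ⟨(-e q).toNat, k * m ^ (e q).toNat, ?_⟩
        push_cast
        rw [mul_assoc, ← zpow_natCast, ← zpow_natCast, ← zpow_add₀ hm0]
        congr 2
        omega
      · exact ⟨0, 0, by simp⟩

/-- Finite sets are separated by the cosets of boundedly generated subgroups whose cosets are
represented by powers of c. -/
def Star (c : Q) (K : ℕ) : Prop :=
  ∀ S : Finset Q, ∃ h : Fin K → Q, (∀ q, ∃ j : ℕ, InCl h (q * (c ^ j)⁻¹)) ∧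
    ∀ s ∈ S, ∀ s' ∈ S, InCl h (s * s'⁻¹) → s = s'

theorem sepH_submodule {n : ℕ} (V : Submodule (GR Q) (Fin n → GR Q)) {c : Q} {K : ℕ}
    (hc : Star c K) : SepH c K V := by
  classical
  intro d hd
  obtain ⟨i, s, hs⟩ := exists_coord hd
  obtain ⟨h, h1, h2⟩ := hc ((d : Fin n → GR Q) i).coeff.support
  refine ⟨h, h1, ?_⟩
  rintro ⟨b, hb⟩
  let w : Q → ℤ := fun q => if InCl h (q * s⁻¹) then 1 else 0
  have hw : ∀ k q, w (h k * q) = 1 * w q := by
    intro k q
    have : InCl h (h k * q * s⁻¹) ↔ InCl h (q * s⁻¹) := by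
      rw [mul_assoc]
      exact Subgroup.mul_mem_cancel_left _ (Subgroup.subset_closure ⟨k, rfl⟩)
    simp only [w, this, one_mul]
  have h3 : coordWt V w i d = 0 := by
    rw [hb, map_sum]
    refine Finset.sum_eq_zero fun k _ => ?_
    rw [map_sub, coordWt_apply, coordWt_apply, smul_coe_apply, wt_gr_mul w _ 1 (hw k), one_mul,
      sub_self]
  rw [coordWt_apply, wt_eq_sum, Finset.sum_eq_single s] at h3
  · have : InCl h (s * s⁻¹) := by
      rw [mul_inv_cancel]; exact one_mem _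
    simp only [w, if_pos this, Int.cast_id, mul_one] at h3
    exact Finsupp.mem_support_iff.1 hs h3
  · intro q hq hne
    have : ¬ InCl h (q * s⁻¹) := fun H => hne (h2 q hq s hs H)
    simp only [w, if_neg this, mul_zero]
  · intro H
    exact absurd hs H

theorem exists_lists {n : ℕ} (V : Submodule (GR Q) (Fin n → GR Q)) (r : GR Q) :
    ∃ l l' : List Q, ∀ v : V, r • v = act l v - act l' v := by
  have hrep : ∀ (m : ℕ) (q : Q) (v : V), act (List.replicate m q) v = m • q • v := by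
    intro m q v
    simp [act]
  induction r using MonoidAlgebra.induction_linear with
  | zero => exact ⟨[], [], fun v => by simp⟩
  | add x y hx hy =>
    obtain ⟨l₁, l₁', h1⟩ := hx
    obtain ⟨l₂, l₂', h2⟩ := hy
    refine ⟨l₁ ++ l₂, l₁' ++ l₂', fun v => ?_⟩
    rw [add_smul, h1, h2]
    simp only [act, List.map_append, List.sum_append]
    abel
  | single q k =>
    refine ⟨List.replicate k.toNat q, List.replicate (-k).toNat q, fun v => ?_⟩
    rw [hrep, hrep, ← natCast_zsmul, ← natCast_zsmul, ← sub_smul, Int.toNat_sub_toNat_neg,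
      smul_def', ← smul_assoc, gr_apply, MonoidAlgebra.smul_single, smul_eq_mul, mul_one]

theorem finRank_submodule {n : ℕ} (V : Submodule (GR Q) (Fin n → GR Q)) [NoZeroDivisors (GR Q)]
    [StrongRankCondition (GR Q)] : FinRank Q V := by
  obtain ⟨s, hs, hmax⟩ := exists_maximal_linearIndepOn (GR Q) (fun v : V => v)
  have hli : LinearIndependent (GR Q) (fun x : s => ((x : V) : Fin n → GR Q)) :=
    LinearIndependent.map' hs V.subtype (Submodule.ker_subtype V)
  have hfin : Finite s := hli.finite_of_le_span_finite _ (Set.range (Pi.basisFun (GR Q) (Fin n)))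
    (by rw [(Pi.basisFun (GR Q) (Fin n)).span_eq]; exact le_top)
  obtain ⟨k, ⟨e⟩⟩ := Finite.exists_equiv_fin s
  let a : Fin k → V := fun i => (e.symm i : V)
  have hrange : Set.range a = s := by
    ext v
    constructor
    · rintro ⟨i, rfl⟩
      exact (e.symm i).2
    · intro hv
      exact ⟨e ⟨v, hv⟩, by simp [a]⟩
  refine ⟨k, a, fun w => ?_⟩
  have : ∃ r : GR Q, r ≠ 0 ∧ r • w ∈ Submodule.span (GR Q) (Set.range a) := by
    by_cases hw : w ∈ s
    · exact ⟨1, one_ne_zero, by rw [one_smul, hrange]; exact Submodule.subset_span hw⟩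
    · obtain ⟨r, h1, h2⟩ := hmax w hw
      exact ⟨r, h1, by rwa [hrange, ← Set.image_id' s]⟩
  obtain ⟨r, hr, hw⟩ := this
  obtain ⟨t, ht⟩ := (Submodule.mem_span_range_iff_exists_fun (GR Q)).1 hw
  obtain ⟨l, l', hl⟩ := exists_lists V r
  choose m m' hm using fun i => exists_lists V (t i)
  refine ⟨l, l', m, m', fun v hv => ?_, ?_⟩
  · have h1 : r • v = 0 := by rw [hl, hv, sub_self]
    ext i : 2
    have h2 : r * (v : Fin n → GR Q) i = 0 := congrFun (congrArg Subtype.val h1) i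
    exact (mul_eq_zero.1 h2).resolve_left hr
  · simp only [hm, hl, Finset.sum_sub_distrib] at ht
    linear_combination (norm := abel1) -ht

theorem uniqueProds_ext {Γ : Type} [Group Γ] (π : Γ →* Q) [UniqueProds Q]
    [UniqueProds π.ker] : UniqueProds Γ := by
  classical
  refine ⟨fun {A B} hA hB => ?_⟩
  obtain ⟨a₀, ha₀, b₀, hb₀, h⟩ := UniqueProds.uniqueMul_of_nonempty (hA.image π) (hB.image π)
  obtain ⟨a', ha', rfl⟩ := Finset.mem_image.1 ha₀
  obtain ⟨b', hb', rfl⟩ := Finset.mem_image.1 hb₀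
  let A' : Finset π.ker := A.preimage (fun x : π.ker => a' * x)
    (fun x _ y _ hxy => Subtype.ext (mul_left_cancel hxy))
  let B' : Finset π.ker := B.preimage (fun x : π.ker => x * b')
    (fun x _ y _ hxy => Subtype.ext (mul_right_cancel hxy))
  have hA' : A'.Nonempty := ⟨1, by simp [A', ha']⟩
  have hB' : B'.Nonempty := ⟨1, by simp [B', hb']⟩
  obtain ⟨x, hx, y, hy, h'⟩ := UniqueProds.uniqueMul_of_nonempty hA' hB'
  refine ⟨a' * x, by simpa [A'] using hx, y * b', by simpa [B'] using hy, ?_⟩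
  intro a b ha hb hab
  have hπx : π x = 1 := x.2
  have hπy : π y = 1 := y.2
  obtain ⟨h1, h2⟩ := h (Finset.mem_image_of_mem π ha) (Finset.mem_image_of_mem π hb) (by
    rw [← map_mul, hab]; simp [hπx, hπy])
  let x' : π.ker := ⟨a'⁻¹ * a, by simp [MonoidHom.mem_ker, h1]⟩
  let y' : π.ker := ⟨b * b'⁻¹, by simp [MonoidHom.mem_ker, h2]⟩
  obtain ⟨h3, h4⟩ := @h' x' y' (by simp [A', x', ha]) (by simp [B', y', hb]) (by
    apply Subtype.ext
    simp only [x', y', Subgroup.coe_mul]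
    calc a'⁻¹ * a * (b * b'⁻¹) = a'⁻¹ * (a * b) * b'⁻¹ := by group
      _ = x * y := by rw [hab]; group)
  constructor
  · rw [← h3]; simp [x']
  · rw [← h4]; simp [y']

open Pointwise in
theorem exists_folner {A : Type} [CommGroup A] [DecidableEq A] (P : Finset A) (k : ℕ) :
    ∃ E : Finset A, k * (E * P).card < (k + 1) * E.card := by
  rcases Nat.eq_zero_or_pos k with rfl | hk
  · exact ⟨{1}, by simp⟩
  by_contra H
  push Not at H
  have h1 : ∀ L : ℕ, (k + 1) ^ L ≤ k ^ L * (P ^ L).card := by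
    intro L
    induction L with
    | zero => simp
    | succ L ih =>
      calc (k + 1) ^ (L + 1) = (k + 1) * (k + 1) ^ L := by ring
        _ ≤ (k + 1) * (k ^ L * (P ^ L).card) := Nat.mul_le_mul_left _ ih
        _ = k ^ L * ((k + 1) * (P ^ L).card) := by ring
        _ ≤ k ^ L * (k * (P ^ L * P).card) := Nat.mul_le_mul_left _ (H _)
        _ = k ^ (L + 1) * (P ^ (L + 1)).card := by rw [pow_succ P]; ring
  have h2 : ∀ L : ℕ, ∀ x ∈ P ^ L, ∃ a : P → ℕ, (∀ p, a p ≤ L) ∧ x = ∏ p : P, (p : A) ^ a p := by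
    intro L
    induction L with
    | zero =>
      intro x hx
      exact ⟨0, fun _ => le_rfl, by simpa using hx⟩
    | succ L ih =>
      intro x hx
      rw [pow_succ] at hx
      obtain ⟨y, hy, p, hp, rfl⟩ := Finset.mem_mul.1 hx
      obtain ⟨a, ha, rfl⟩ := ih y hy
      refine ⟨a + Pi.single ⟨p, hp⟩ 1, fun q => ?_, ?_⟩
      · have := ha q
        simp only [Pi.add_apply, Pi.single_apply]
        split_ifs <;> omega
      · simp only [Pi.add_apply, pow_add, Finset.prod_mul_distrib]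
        congr 1
        rw [Finset.prod_eq_single ⟨p, hp⟩]
        · simp
        · intro q _ hq
          simp [hq]
        · simp
  have h3 : ∀ L : ℕ, (P ^ L).card ≤ (L + 1) ^ P.card := by
    intro L
    calc (P ^ L).card ≤ (Finset.univ.image
          fun a : P → Fin (L + 1) => ∏ p : P, (p : A) ^ (a p : ℕ)).card := by
          refine Finset.card_le_card fun x hx => ?_
          obtain ⟨a, ha, rfl⟩ := h2 L x hx
          exact Finset.mem_image.2 ⟨fun p => ⟨a p, Nat.lt_succ_of_le (ha p)⟩, Finset.mem_univ _, rfl⟩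
      _ ≤ (Finset.univ : Finset (P → Fin (L + 1))).card := Finset.card_image_le
      _ = (L + 1) ^ P.card := by simp
  have hk' : (0 : ℝ) < k := by exact_mod_cast hk
  have hr : (1 : ℝ) < (k + 1) / k := by rw [one_lt_div hk']; linarith
  have h4 := tendsto_pow_const_div_const_pow_of_one_lt P.card hr
  have h5 : (0 : ℝ) < 1 / ((k + 1) / k) := by positivity
  obtain ⟨N, hN⟩ := Filter.eventually_atTop.1 (h4.eventually (gt_mem_nhds h5))
  have h6 := hN (N + 1) (Nat.le_succ N)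
  rw [div_lt_div_iff₀ (by positivity) (by positivity), one_mul, pow_succ,
    mul_lt_mul_iff_left₀ (by positivity), div_pow, lt_div_iff₀ (by positivity)] at h6
  have h7 : (((k + 1) ^ N : ℕ) : ℝ) ≤ ((k ^ N * (N + 1) ^ P.card : ℕ) : ℝ) := by
    exact_mod_cast (h1 N).trans (Nat.mul_le_mul_left _ (h3 N))
  push_cast at h6 h7
  linarith

theorem src_of_comm (h : ∀ a b : Q, a * b = b * a) : StrongRankCondition (GR Q) := by
  let : CommGroup Q := { ‹Group Q› with mul_comm := h }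
  exact commRing_strongRankCondition (GR Q)

open Pointwise in
theorem src_ext {Γ : Type} [Group Γ] (π : Γ →* Q) (hπ : Function.Surjective π)
    (hQ : ∀ a b : Q, a * b = b * a) (hN : ∀ a b : π.ker, a * b = b * a) :
    StrongRankCondition (GR Γ) := by
  classical
  have := src_of_comm hN
  let : CommGroup Q := { ‹Group Q› with mul_comm := hQ }
  rw [strongRankCondition_iff_succ]
  intro k f hf
  let φ : GR π.ker →+* GR Γ := MonoidAlgebra.mapDomainRingHom ℤ π.ker.subtype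
  let : Module (GR π.ker) (Fin k → GR Γ) := Module.compHom _ φ
  have hsm : ∀ (s : GR π.ker) (t : Fin k → GR Γ), s • t = φ s • t := fun _ _ => rfl
  choose σ hσ using hπ
  let P : Finset Q := Finset.univ.biUnion fun p : Fin (k + 1) × Fin k =>
    (f (Pi.single p.1 1) p.2).coeff.support.image π
  obtain ⟨E, hE⟩ := exists_folner P k
  let v : E × Fin (k + 1) → Fin k → GR Γ := fun p => f (Pi.single p.2 (gr (σ p.1)))
  let u : (E * P : Finset Q) × Fin k → Fin k → GR Γ := fun p => Pi.single p.2 (gr (σ p.1))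
  have hli : LinearIndependent (GR π.ker) v := by
    rw [Fintype.linearIndependent_iff]
    rintro g hg ⟨α, i⟩
    have h1 : f (∑ p : E × Fin (k + 1), φ (g p) • Pi.single p.2 (gr (σ p.1))) = f 0 := by
      rw [map_sum, map_zero, ← hg]
      exact Finset.sum_congr rfl fun p _ => by rw [map_smul, hsm]
    have h2 := congrFun (hf h1) i
    rw [Finset.sum_apply, Fintype.sum_prod_type] at h2
    have h3 : ∑ β : E, φ (g (β, i)) * gr (σ β) = 0 := by
      rw [← Pi.zero_apply (M := fun _ => GR Γ) i, ← h2]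
      refine Finset.sum_congr rfl fun β _ => ?_
      rw [Finset.sum_eq_single i]
      · simp
      · intro j _ hj
        simp [hj.symm]
      · simp
    ext ν
    have h4 := congrArg (fun r : GR Γ => r.coeff (ν * σ α)) h3
    simp only [MonoidAlgebra.coeff_sum, Finsupp.finsetSum_apply, gr_apply,
      MonoidAlgebra.coeff_mul_single_apply, mul_one, MonoidAlgebra.coeff_zero,
      Finsupp.zero_apply] at h4
    rw [Finset.sum_eq_single α] at h4
    · rw [mul_inv_cancel_right] at h4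
      simp only [MonoidAlgebra.coeff_zero, Finsupp.zero_apply]
      rw [← h4]
      exact (Finsupp.mapDomain_apply π.ker.subtype_injective _ ν).symm
    · intro β _ hβ
      refine Finsupp.mapDomain_of_notMem_range _ _ ?_
      rintro ⟨x, hx⟩
      have h5 : π x = 1 := x.2
      have h6 : π ν = 1 := ν.2
      have h7 := congrArg π hx
      simp only [Subgroup.coe_subtype, h5, map_mul, h6, map_inv, hσ, one_mul] at h7
      exact hβ (Subtype.ext (mul_inv_eq_one.1 h7.symm).symm)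
    · simp
  have hsp : Set.range v ≤ Submodule.span (GR π.ker) (Set.range u) := by
    rintro _ ⟨⟨α, i⟩, rfl⟩
    have h1 : v (α, i) = ∑ j, Pi.single j (gr (σ α) * f (Pi.single i 1) j) := by
      have : (Pi.single i (gr (σ α)) : Fin (k + 1) → GR Γ) = gr (σ α) • Pi.single i 1 := by
        rw [← Pi.single_smul, smul_eq_mul, mul_one]
      simp only [v]
      rw [this, map_smul]
      exact (Finset.univ_sum_single _).symm
    rw [h1]
    refine Submodule.sum_mem _ fun j _ => ?_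
    rw [← MonoidAlgebra.sum_coeff_single (f (Pi.single i 1) j), Finsupp.sum, Finset.mul_sum,
      ← LinearMap.coe_single (GR Γ), map_sum]
    refine Submodule.sum_mem _ fun g hg => ?_
    have hβ : (α : Q) * π g ∈ E * P := Finset.mul_mem_mul α.2
      (Finset.mem_biUnion.2 ⟨(i, j), Finset.mem_univ _, Finset.mem_image_of_mem π hg⟩)
    let ν : π.ker := ⟨σ α * g * (σ (α * π g))⁻¹, by simp [MonoidHom.mem_ker, hσ]⟩
    have h2 : LinearMap.single (GR Γ) (fun _ : Fin k => GR Γ) j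
        (gr (σ α) * MonoidAlgebra.single g ((f (Pi.single i 1) j).coeff g)) =
        (MonoidAlgebra.single ν ((f (Pi.single i 1) j).coeff g) : GR π.ker) • u (⟨_, hβ⟩, j) := by
      rw [hsm]
      simp only [u, φ, LinearMap.coe_single, MonoidAlgebra.mapDomainRingHom_apply,
        MonoidAlgebra.mapDomain_single, gr_apply]
      rw [← Pi.single_smul, smul_eq_mul, MonoidAlgebra.single_mul_single,
        MonoidAlgebra.single_mul_single]
      simp [ν]
    rw [h2]
    exact Submodule.smul_mem _ _ (Submodule.subset_span ⟨_, rfl⟩)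
  have h1 := linearIndependent_le_span_aux' v hli (Set.range u) hsp
  have h2 := h1.trans (Fintype.card_range_le u)
  simp only [Fintype.card_prod, Fintype.card_coe, Fintype.card_fin] at h2
  nlinarith

end Pool.Agent.MP_c33acd_lc

end MrgPart2

-- marker of a merged file
example : 731051 + 630739 = 731051 + 630739 := rfl
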