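import Mathlib.Data.Finite.Prod
import Mathlib.Algebra.BigOperators.Group.Finset.Basic
import Mathlib.Data.Finite.Sum
import Mathlib.CategoryTheory.Category.Init
import Mathlib.Tactic.Continuity

/-!
A small framework for definability in interpretable sorts.
-/

set_option autoImplicit false

namespace Pool.Agent.MP_c33acd_lc

open Set

/-- A family of subsets of the powers of a set, closed under first order operations. -/
structure DefStr where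
  G : Type
  nontriv : Nontrivial G
  D : ∀ ι : Type, Set (ι → G) → Prop
  univ : ∀ ι, D ι Set.univ
  inter : ∀ ι s t, D ι s → D ι t → D ι (s ∩ t)
  compl : ∀ ι s, D ι s → D ι sᶜ
  pre : ∀ ι κ (f : ι → κ) s, D ι s → D κ {v | v ∘ f ∈ s}
  ex : ∀ ι κ [Finite κ] (S : Set (ι ⊕ κ → G)), D (ι ⊕ κ) S → D ι {v | ∃ u, Sum.elim v u ∈ S}
  eq : D Bool {v | v true = v false}

/-- An interpretation of the type X. -/
class Srt (𝒟 : DefStr) (X : Type) where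
  ι : Type
  fin : Finite ι
  rep : (ι → 𝒟.G) → X → Prop
  func : ∀ v x y, rep v x → rep v y → x = y
  tot : ∀ x, ∃ v, rep v x
  eqv : 𝒟.D (ι ⊕ ι) {w | ∃ x, rep (w ∘ Sum.inl) x ∧ rep (w ∘ Sum.inr) x}

instance (𝒟 : DefStr) (X : Type) [S : Srt 𝒟 X] : Finite S.ι := S.fin

variable {𝒟 : DefStr}

theorem DefStr.congr {ι : Type} {s t : Set (ι → 𝒟.G)} (h : 𝒟.D ι s) (e : ∀ v, v ∈ t ↔ v ∈ s) :
    𝒟.D ι t := by
  have : t = s := Set.ext e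
  rwa [this]

theorem DefStr.eq' {ι : Type} (i j : ι) : 𝒟.D ι {v | v i = v j} :=
  DefStr.congr (𝒟.pre Bool ι (fun b => cond b i j) _ 𝒟.eq) (fun _ => Iff.rfl)

theorem DefStr.union {ι : Type} {s t : Set (ι → 𝒟.G)} (hs : 𝒟.D ι s) (ht : 𝒟.D ι t) :
    𝒟.D ι (s ∪ t) :=
  DefStr.congr (𝒟.compl _ _ (𝒟.inter _ _ _ (𝒟.compl _ _ hs) (𝒟.compl _ _ ht))) (fun v => by
    simp only [mem_union, mem_compl_iff, mem_inter_iff]; tauto)

theorem DefStr.iInter {ι κ : Type} [Finite κ] {s : κ → Set (ι → 𝒟.G)} (hs : ∀ k, 𝒟.D ι (s k)) :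
    𝒟.D ι {v | ∀ k, v ∈ s k} := by
  classical
  have := Fintype.ofFinite κ
  have : ∀ F : Finset κ, 𝒟.D ι {v | ∀ k ∈ F, v ∈ s k} := by
    intro F
    induction F using Finset.induction_on with
    | empty => exact DefStr.congr (𝒟.univ ι) (fun v => by simp)
    | insert a F _ ih =>
      exact DefStr.congr (𝒟.inter _ _ _ (hs a) ih) (fun v => by simp)
  exact DefStr.congr (this Finset.univ) (fun v => by simp)

theorem Srt.dom (X : Type) [S : Srt 𝒟 X] : 𝒟.D S.ι {v | ∃ x, S.rep v x} := by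
  refine DefStr.congr (𝒟.pre _ _ (Sum.elim id id) _ S.eqv) (fun v => ?_)
  simp only [mem_ofPred_eq]
  constructor
  · rintro ⟨x, hx⟩
    exact ⟨x, hx, hx⟩
  · rintro ⟨x, hx, -⟩
    exact ⟨x, hx⟩

instance instSrtProd (X Y : Type) [S : Srt 𝒟 X] [T : Srt 𝒟 Y] : Srt 𝒟 (X × Y) where
  ι := S.ι ⊕ T.ι
  fin := inferInstance
  rep w p := S.rep (w ∘ Sum.inl) p.1 ∧ T.rep (w ∘ Sum.inr) p.2
  func v x y hx hy := Prod.ext (S.func _ _ _ hx.1 hy.1) (T.func _ _ _ hx.2 hy.2)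
  tot p := by
    obtain ⟨v, hv⟩ := S.tot p.1
    obtain ⟨w, hw⟩ := T.tot p.2
    exact ⟨Sum.elim v w, hv, hw⟩
  eqv := by
    refine DefStr.congr (𝒟.inter _ _ _ (𝒟.pre _ _ (Sum.map Sum.inl Sum.inl) _ S.eqv)
      (𝒟.pre _ _ (Sum.map Sum.inr Sum.inr) _ T.eqv)) (fun v => ?_)
    simp only [mem_ofPred_eq, mem_inter_iff]
    constructor
    · rintro ⟨p, ⟨h1, h2⟩, h3, h4⟩
      exact ⟨⟨p.1, h1, h3⟩, ⟨p.2, h2, h4⟩⟩
    · rintro ⟨⟨x, h1, h3⟩, ⟨y, h2, h4⟩⟩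
      exact ⟨(x, y), ⟨h1, h2⟩, h3, h4⟩

instance instSrtPi (κ X : Type) [Finite κ] [S : Srt 𝒟 X] : Srt 𝒟 (κ → X) where
  ι := κ × S.ι
  fin := inferInstance
  rep w f := ∀ k, S.rep (fun i => w (k, i)) (f k)
  func v x y hx hy := funext fun k => S.func _ _ _ (hx k) (hy k)
  tot f := by
    choose v hv using fun k => S.tot (f k)
    exact ⟨fun p => v p.1 p.2, hv⟩
  eqv := by
    refine DefStr.congr (DefStr.iInter (κ := κ) fun k =>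
      𝒟.pre _ _ (Sum.map (fun i => (k, i)) (fun i => (k, i))) _ S.eqv) (fun v => ?_)
    simp only [mem_ofPred_eq]
    constructor
    · rintro ⟨f, h1, h2⟩ k
      exact ⟨f k, h1 k, h2 k⟩
    · intro h
      choose f h1 h2 using h
      exact ⟨f, h1, h2⟩

instance instSrtProp : Srt 𝒟 Prop where
  ι := Bool
  fin := inferInstance
  rep v p := (p ↔ v true = v false)
  func v x y hx hy := propext (hx.trans hy.symm)
  tot p := by
    obtain ⟨a, b, hab⟩ := 𝒟.nontriv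
    by_cases hp : p
    · exact ⟨fun _ => a, by simp [hp]⟩
    · exact ⟨fun i => cond i a b, by simp [hp, hab]⟩
  eqv := by
    have h1 : 𝒟.D (Bool ⊕ Bool) {v | v (Sum.inl true) = v (Sum.inl false)} := DefStr.eq' _ _
    have h2 : 𝒟.D (Bool ⊕ Bool) {v | v (Sum.inr true) = v (Sum.inr false)} := DefStr.eq' _ _
    refine DefStr.congr (DefStr.union (𝒟.inter _ _ _ h1 h2)
      (𝒟.inter _ _ _ (𝒟.compl _ _ h1) (𝒟.compl _ _ h2))) (fun v => ?_)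
    simp only [mem_ofPred_eq, mem_union, mem_inter_iff, mem_compl_iff, Function.comp]
    constructor
    · rintro ⟨p, h1, h2⟩
      tauto
    · intro h
      exact ⟨v (Sum.inl true) = v (Sum.inl false), Iff.rfl, by tauto⟩

/-- The home sort. -/
@[instance_reducible]
def homeSrt (𝒟 : DefStr) : Srt 𝒟 𝒟.G where
  ι := Unit
  fin := inferInstance
  rep v x := v () = x
  func v x y hx hy := hx.symm.trans hy
  tot x := ⟨fun _ => x, rfl⟩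
  eqv := by
    refine DefStr.congr (DefStr.eq' (Sum.inl ()) (Sum.inr ())) (fun v => ?_)
    simp [eq_comm]

section Df

variable {X Y Z : Type} [SX : Srt 𝒟 X] [SY : Srt 𝒟 Y] [SZ : Srt 𝒟 Z]

/-- Definable predicates on a sort. -/
def Df (𝒟 : DefStr) {X : Type} [S : Srt 𝒟 X] (P : X → Prop) : Prop :=
  𝒟.D S.ι {v | ∃ x, S.rep v x ∧ P x}

theorem Df.congr {P Q : X → Prop} (h : Df 𝒟 P) (e : ∀ x, Q x ↔ P x) : Df 𝒟 Q := by
  have : Q = P := funext fun x => propext (e x)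
  rwa [this]

theorem Df.top : Df 𝒟 (fun _ : X => True) :=
  DefStr.congr (Srt.dom X) (fun v => by simp)

theorem Df.and {P Q : X → Prop} (hP : Df 𝒟 P) (hQ : Df 𝒟 Q) : Df 𝒟 (fun x => P x ∧ Q x) := by
  refine DefStr.congr (𝒟.inter _ _ _ hP hQ) (fun v => ?_)
  simp only [mem_ofPred_eq, mem_inter_iff]
  constructor
  · rintro ⟨x, h1, h2, h3⟩
    exact ⟨⟨x, h1, h2⟩, ⟨x, h1, h3⟩⟩
  · rintro ⟨⟨x, h1, h2⟩, ⟨y, h3, h4⟩⟩
    obtain rfl := SX.func _ _ _ h1 h3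
    exact ⟨x, h1, h2, h4⟩

theorem Df.not {P : X → Prop} (hP : Df 𝒟 P) : Df 𝒟 (fun x => ¬ P x) := by
  refine DefStr.congr (𝒟.inter _ _ _ (Srt.dom X) (𝒟.compl _ _ hP)) (fun v => ?_)
  simp only [mem_ofPred_eq, mem_inter_iff, mem_compl_iff]
  constructor
  · rintro ⟨x, h1, h2⟩
    refine ⟨⟨x, h1⟩, ?_⟩
    rintro ⟨y, h3, h4⟩
    obtain rfl := SX.func _ _ _ h1 h3
    exact h2 h4
  · rintro ⟨⟨x, h1⟩, h2⟩
    exact ⟨x, h1, fun h => h2 ⟨x, h1, h⟩⟩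

theorem Df.or {P Q : X → Prop} (hP : Df 𝒟 P) (hQ : Df 𝒟 Q) : Df 𝒟 (fun x => P x ∨ Q x) :=
  (hP.not.and hQ.not).not.congr (fun x => by tauto)

theorem Df.iff {P Q : X → Prop} (hP : Df 𝒟 P) (hQ : Df 𝒟 Q) : Df 𝒟 (fun x => P x ↔ Q x) :=
  ((hP.and hQ).or (hP.not.and hQ.not)).congr (fun x => by tauto)

theorem Df.ex {P : X → Y → Prop} (h : Df 𝒟 (fun p : X × Y => P p.1 p.2)) :
    Df 𝒟 (fun x => ∃ y, P x y) := by
  refine DefStr.congr (𝒟.ex _ _ _ h) (fun v => ?_)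
  simp only [mem_ofPred_eq]
  constructor
  · rintro ⟨x, h1, y, h2⟩
    obtain ⟨u, hu⟩ := SY.tot y
    exact ⟨u, (x, y), ⟨h1, hu⟩, h2⟩
  · rintro ⟨u, p, ⟨h1, -⟩, h2⟩
    exact ⟨p.1, h1, p.2, h2⟩

theorem Df.eq : Df 𝒟 (fun p : X × X => p.1 = p.2) := by
  refine DefStr.congr SX.eqv (fun v => ?_)
  simp only [mem_ofPred_eq]
  constructor
  · rintro ⟨p, ⟨h1, h2⟩, h3⟩
    exact ⟨p.1, h1, h3 ▸ h2⟩
  · rintro ⟨x, h1, h2⟩
    exact ⟨(x, x), ⟨h1, h2⟩, rfl⟩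

/-- Maps induced by a renaming of variables. -/
def Str (𝒟 : DefStr) {X Y : Type} [S : Srt 𝒟 X] [T : Srt 𝒟 Y] (f : X → Y) : Prop :=
  ∃ σ : T.ι → S.ι, ∀ v x, S.rep v x → T.rep (v ∘ σ) (f x)

theorem Str.id : Str 𝒟 (fun x : X => x) := ⟨fun i => i, fun _ _ h => h⟩

theorem Str.fst {f : X → Y × Z} (h : Str 𝒟 f) : Str 𝒟 (fun x => (f x).1) := by
  obtain ⟨σ, hσ⟩ := h
  exact ⟨σ ∘ Sum.inl, fun v x hx => (hσ v x hx).1⟩

theorem Str.snd {f : X → Y × Z} (h : Str 𝒟 f) : Str 𝒟 (fun x => (f x).2) := by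
  obtain ⟨σ, hσ⟩ := h
  exact ⟨σ ∘ Sum.inr, fun v x hx => (hσ v x hx).2⟩

theorem Str.mk {f : X → Y} {g : X → Z} (hf : Str 𝒟 f) (hg : Str 𝒟 g) :
    Str 𝒟 (fun x => (f x, g x)) := by
  obtain ⟨σ, hσ⟩ := hf
  obtain ⟨τ, hτ⟩ := hg
  exact ⟨Sum.elim σ τ, fun v x hx => ⟨hσ v x hx, hτ v x hx⟩⟩

theorem Str.apply {κ : Type} [Finite κ] {f : X → κ → Y} (h : Str 𝒟 f) (k : κ) :
    Str 𝒟 (fun x => f x k) := by
  obtain ⟨σ, hσ⟩ := h
  exact ⟨fun i => σ (k, i), fun v x hx => hσ v x hx k⟩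

theorem Df.str {P : Y → Prop} (hP : Df 𝒟 P) {f : X → Y} (hf : Str 𝒟 f) :
    Df 𝒟 (fun x => P (f x)) := by
  obtain ⟨σ, hσ⟩ := hf
  refine DefStr.congr (𝒟.inter _ _ _ (Srt.dom X) (𝒟.pre _ _ σ _ hP)) (fun v => ?_)
  simp only [mem_ofPred_eq, mem_inter_iff]
  constructor
  · rintro ⟨x, h1, h2⟩
    exact ⟨⟨x, h1⟩, f x, hσ v x h1, h2⟩
  · rintro ⟨⟨x, h1⟩, y, h2, h3⟩
    obtain rfl := SY.func _ _ _ h2 (hσ v x h1)
    exact ⟨x, h1, h3⟩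

theorem Df.allFin {κ : Type} [Finite κ] {P : κ → X → Prop} (h : ∀ k, Df 𝒟 (P k)) :
    Df 𝒟 (fun x => ∀ k, P k x) := by
  refine DefStr.congr (𝒟.inter _ _ _ (Srt.dom X) (DefStr.iInter h)) (fun v => ?_)
  simp only [mem_ofPred_eq, mem_inter_iff]
  constructor
  · rintro ⟨x, h1, h2⟩
    exact ⟨⟨x, h1⟩, fun k => ⟨x, h1, h2 k⟩⟩
  · rintro ⟨⟨x, h1⟩, h2⟩
    refine ⟨x, h1, fun k => ?_⟩
    obtain ⟨y, h3, h4⟩ := h2 k
    obtain rfl := SX.func _ _ _ h1 h3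
    exact h4

/-- Definable functions between sorts. -/
@[fun_prop]
def DfF (𝒟 : DefStr) {X Y : Type} [Srt 𝒟 X] [Srt 𝒟 Y] (f : X → Y) : Prop :=
  Df 𝒟 (fun p : X × Y => f p.1 = p.2)

theorem Str.dfF {f : X → Y} (hf : Str 𝒟 f) : DfF 𝒟 f := by
  obtain ⟨σ, hσ⟩ := hf
  have : Str 𝒟 (fun p : X × Y => (f p.1, p.2)) :=
    Str.mk ⟨Sum.inl ∘ σ, fun v p hp => hσ _ _ hp.1⟩ (Str.snd Str.id)
  exact Df.eq.str this

theorem Df.comp {P : Y → Prop} (hP : Df 𝒟 P) {f : X → Y} (hf : DfF 𝒟 f) :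
    Df 𝒟 (fun x => P (f x)) := by
  have h1 : Df 𝒟 (fun p : X × Y => f p.1 = p.2 ∧ P p.2) := Df.and hf (hP.str (Str.snd Str.id))
  exact (Df.ex (P := fun x y => f x = y ∧ P y) h1).congr (fun x => by simp)

theorem dfF_iff {P : X → Prop} : DfF 𝒟 P ↔ Df 𝒟 P := by
  have hid : Df 𝒟 (fun p : Prop => p) := by
    refine DefStr.congr 𝒟.eq (fun v => ?_)
    simp only [mem_ofPred_eq]
    constructor
    · rintro ⟨p, h1, h2⟩
      exact h1.1 h2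
    · intro h
      exact ⟨True, ⟨fun _ => h, fun _ => trivial⟩, trivial⟩
  constructor
  · intro h
    exact hid.comp h
  · intro h
    exact ((h.str (Str.fst Str.id)).iff (hid.str (Str.snd Str.id))).congr (fun p => by simp)

@[fun_prop]
theorem DfF.id : DfF 𝒟 (fun x : X => x) := Str.id.dfF

@[fun_prop]
theorem DfF.comp {f : Y → Z} {g : X → Y} (hf : DfF 𝒟 f) (hg : DfF 𝒟 g) :
    DfF 𝒟 (fun x => f (g x)) := by
  have h1 : Df 𝒟 (fun q : (X × Z) × Y => g q.1.1 = q.2 ∧ f q.2 = q.1.2) :=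
    Df.and (Df.str (P := fun p : X × Y => g p.1 = p.2) hg
        (Str.mk (Str.fst (Str.fst Str.id)) (Str.snd Str.id)))
      (Df.str (P := fun p : Y × Z => f p.1 = p.2) hf
        (Str.mk (Str.snd Str.id) (Str.snd (Str.fst Str.id))))
  exact (Df.ex (P := fun (p : X × Z) y => g p.1 = y ∧ f y = p.2) h1).congr (fun x => by simp)

@[fun_prop]
theorem DfF.fst {f : X → Y × Z} (hf : DfF 𝒟 f) : DfF 𝒟 (fun x => (f x).1) :=
  DfF.comp (Str.fst Str.id).dfF hf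

@[fun_prop]
theorem DfF.snd {f : X → Y × Z} (hf : DfF 𝒟 f) : DfF 𝒟 (fun x => (f x).2) :=
  DfF.comp (Str.snd Str.id).dfF hf

@[fun_prop]
theorem DfF.mk {f : X → Y} {g : X → Z} (hf : DfF 𝒟 f) (hg : DfF 𝒟 g) :
    DfF 𝒟 (fun x => (f x, g x)) := by
  have h1 : Df 𝒟 (fun q : X × (Y × Z) => f q.1 = q.2.1 ∧ g q.1 = q.2.2) :=
    Df.and (Df.str (P := fun p : X × Y => f p.1 = p.2) hf
        (Str.mk (Str.fst Str.id) (Str.fst (Str.snd Str.id))))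
      (Df.str (P := fun p : X × Z => g p.1 = p.2) hg
        (Str.mk (Str.fst Str.id) (Str.snd (Str.snd Str.id))))
  exact h1.congr (fun x => by simp [Prod.ext_iff])

@[fun_prop]
theorem DfF.apply {κ : Type} [Finite κ] (k : κ) : DfF 𝒟 (fun f : κ → Y => f k) :=
  (Str.apply Str.id k).dfF

@[fun_prop]
theorem DfF.pi {κ : Type} [Finite κ] {f : X → κ → Y} (h : ∀ k, DfF 𝒟 (fun x => f x k)) :
    DfF 𝒟 (fun x k => f x k) := by
  have h1 : Df 𝒟 (fun q : X × (κ → Y) => ∀ k, f q.1 k = q.2 k) :=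
    Df.allFin fun k => Df.str (P := fun p : X × Y => f p.1 k = p.2) (h k)
      (Str.mk (Str.fst Str.id) (Str.apply (Str.snd Str.id) k))
  exact h1.congr (fun x => by simp [funext_iff])

theorem DfF.congr {P Q : X → Prop} (h : DfF 𝒟 P) (e : ∀ x, Q x ↔ P x) : DfF 𝒟 Q :=
  dfF_iff.2 ((dfF_iff.1 h).congr e)

theorem DfF.congr' {f g : X → Y} (h : DfF 𝒟 f) (e : ∀ x, g x = f x) : DfF 𝒟 g := by
  have : g = f := funext e
  rwa [this]

theorem DfF.of_graph {f : X → Y} (h : DfF 𝒟 (fun p : X × Y => f p.1 = p.2)) : DfF 𝒟 f :=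
  dfF_iff.1 h

theorem DfF.of_rel {f : X → Y} {P : X × Y → Prop} (h : DfF 𝒟 P)
    (e : ∀ x y, f x = y ↔ P (x, y)) : DfF 𝒟 f :=
  DfF.of_graph (h.congr fun p => e p.1 p.2)

@[fun_prop]
theorem DfF.eq {f g : X → Y} (hf : DfF 𝒟 f) (hg : DfF 𝒟 g) : DfF 𝒟 (fun x => f x = g x) :=
  dfF_iff.2 (Df.eq.comp (hf.mk hg))

@[fun_prop]
theorem DfF.and {P Q : X → Prop} (hP : DfF 𝒟 P) (hQ : DfF 𝒟 Q) : DfF 𝒟 (fun x => P x ∧ Q x) :=
  dfF_iff.2 ((dfF_iff.1 hP).and (dfF_iff.1 hQ))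

@[fun_prop]
theorem DfF.or {P Q : X → Prop} (hP : DfF 𝒟 P) (hQ : DfF 𝒟 Q) : DfF 𝒟 (fun x => P x ∨ Q x) :=
  dfF_iff.2 ((dfF_iff.1 hP).or (dfF_iff.1 hQ))

@[fun_prop]
theorem DfF.not {P : X → Prop} (hP : DfF 𝒟 P) : DfF 𝒟 (fun x => ¬ P x) :=
  dfF_iff.2 (dfF_iff.1 hP).not

@[fun_prop]
theorem DfF.ne {f g : X → Y} (hf : DfF 𝒟 f) (hg : DfF 𝒟 g) : DfF 𝒟 (fun x => f x ≠ g x) :=
  (hf.eq hg).not

@[fun_prop]
theorem DfF.iff {P Q : X → Prop} (hP : DfF 𝒟 P) (hQ : DfF 𝒟 Q) : DfF 𝒟 (fun x => P x ↔ Q x) :=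
  dfF_iff.2 ((dfF_iff.1 hP).iff (dfF_iff.1 hQ))

@[fun_prop]
theorem DfF.ex {P : X → Y → Prop} (h : DfF 𝒟 (fun p : X × Y => P p.1 p.2)) :
    DfF 𝒟 (fun x => ∃ y, P x y) :=
  dfF_iff.2 (Df.ex (dfF_iff.1 h))

/-- Universal quantifier, as a constant. -/
def All {Y : Type} (P : Y → Prop) : Prop := ∀ y, P y

/-- Universal quantifier over a finite index type, as a constant. -/
def AllF {κ : Type} (P : κ → Prop) : Prop := ∀ y, P y

/-- Implication, as a constant. -/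
def Imp (P Q : Prop) : Prop := P → Q

@[fun_prop]
theorem DfF.all {P : X → Y → Prop} (h : DfF 𝒟 (fun p : X × Y => P p.1 p.2)) :
    DfF 𝒟 (fun x => All fun y => P x y) :=
  (DfF.ex (P := fun x y => ¬ P x y) h.not).not.congr (fun x => by simp [All])

@[fun_prop]
theorem DfF.allF {κ : Type} [Finite κ] {P : X → κ → Prop} (h : ∀ k, DfF 𝒟 (fun x => P x k)) :
    DfF 𝒟 (fun x => AllF fun k => P x k) :=
  dfF_iff.2 (Df.allFin (P := fun k x => P x k) fun k => dfF_iff.1 (h k))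

@[fun_prop]
theorem DfF.imp {P Q : X → Prop} (hP : DfF 𝒟 P) (hQ : DfF 𝒟 Q) :
    DfF 𝒟 (fun x => Imp (P x) (Q x)) :=
  (hP.not.or hQ).congr (fun x => by unfold Imp; tauto)

/-- All elements of the home sort are named. -/
class Cst (𝒟 : DefStr) : Prop where
  cst : ∀ a : 𝒟.G, 𝒟.D Unit {v | v () = a}

@[fun_prop]
theorem DfF.const [Cst 𝒟] (c : Y) : DfF 𝒟 (fun _ : X => c) := by
  have h : Df 𝒟 (fun y : Y => c = y) := by
    obtain ⟨w, hw⟩ := SY.tot c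
    have h1 : 𝒟.D (SY.ι ⊕ SY.ι) {v | ∀ i, v ∈ {v : SY.ι ⊕ SY.ι → 𝒟.G | v (Sum.inr i) = w i}} :=
      DefStr.iInter fun i => 𝒟.pre Unit _ (fun _ => Sum.inr i) _ (Cst.cst (w i))
    refine DefStr.congr (𝒟.ex _ _ _ (𝒟.inter _ _ _ h1 SY.eqv)) (fun v => ?_)
    simp only [mem_ofPred_eq, mem_inter_iff]
    constructor
    · rintro ⟨y, h2, rfl⟩
      exact ⟨w, fun i => rfl, c, h2, hw⟩
    · rintro ⟨u, h2, y, h3, h4⟩
      obtain rfl : u = w := funext h2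
      exact ⟨y, h3, SY.func _ _ _ hw h4⟩
  exact h.str (Str.snd Str.id)

/-- New sorts from definable functional relations. -/
theorem exists_srt {W : Type} (ρ : Y → W → Prop) (func : ∀ y a b, ρ y a → ρ y b → a = b)
    (tot : ∀ a, ∃ y, ρ y a) (heq : DfF 𝒟 (fun p : Y × Y => ∃ a, ρ p.1 a ∧ ρ p.2 a)) :
    ∃ _ : Srt 𝒟 W, DfF 𝒟 (fun p : Y × W => ρ p.1 p.2) := by
  have heq' := dfF_iff.1 heq
  let S : Srt 𝒟 W :=
    { ι := SY.ι
      fin := inferInstance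
      rep := fun v a => ∃ y, SY.rep v y ∧ ρ y a
      func := by
        rintro v a b ⟨y, h1, h2⟩ ⟨y', h3, h4⟩
        obtain rfl := SY.func _ _ _ h1 h3
        exact func _ _ _ h2 h4
      tot := fun a => by
        obtain ⟨y, hy⟩ := tot a
        obtain ⟨v, hv⟩ := SY.tot y
        exact ⟨v, y, hv, hy⟩
      eqv := by
        refine DefStr.congr heq' (fun v => ?_)
        simp only [mem_ofPred_eq]
        constructor
        · rintro ⟨a, ⟨y, h1, h2⟩, ⟨y', h3, h4⟩⟩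
          exact ⟨(y, y'), ⟨h1, h3⟩, a, h2, h4⟩
        · rintro ⟨p, ⟨h1, h3⟩, a, h2, h4⟩
          exact ⟨a, ⟨p.1, h1, h2⟩, ⟨p.2, h3, h4⟩⟩ }
  refine ⟨S, dfF_iff.2 ?_⟩
  refine DefStr.congr heq' (fun v => ?_)
  simp only [mem_ofPred_eq]
  constructor
  · rintro ⟨p, ⟨h1, y', h3, h4⟩, h2⟩
    exact ⟨(p.1, y'), ⟨h1, h3⟩, p.2, h2, h4⟩
  · rintro ⟨p, ⟨h1, h3⟩, a, h2, h4⟩
    exact ⟨(p.1, a), ⟨h1, p.2, h3, h4⟩, h2⟩

/-- Definable multiplication. -/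
class DMul (𝒟 : DefStr) (X : Type) [Mul X] [Srt 𝒟 X] : Prop where
  mul : DfF 𝒟 (fun p : X × X => p.1 * p.2)

/-- Definable addition. -/
class DAdd (𝒟 : DefStr) (X : Type) [Add X] [Srt 𝒟 X] : Prop where
  add : DfF 𝒟 (fun p : X × X => p.1 + p.2)

/-- Definable scalar action. -/
class DSMul (𝒟 : DefStr) (X Y : Type) [SMul X Y] [Srt 𝒟 X] [Srt 𝒟 Y] : Prop where
  smul : DfF 𝒟 (fun p : X × Y => p.1 • p.2)

@[fun_prop]
theorem DfF.mul [Mul Y] [DMul 𝒟 Y] {f g : X → Y} (hf : DfF 𝒟 f) (hg : DfF 𝒟 g) :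
    DfF 𝒟 (fun x => f x * g x) :=
  DfF.comp DMul.mul (hf.mk hg)

@[fun_prop]
theorem DfF.add [Add Y] [DAdd 𝒟 Y] {f g : X → Y} (hf : DfF 𝒟 f) (hg : DfF 𝒟 g) :
    DfF 𝒟 (fun x => f x + g x) :=
  DfF.comp DAdd.add (hf.mk hg)

@[fun_prop]
theorem DfF.smul [SMul Y Z] [DSMul 𝒟 Y Z] {f : X → Y} {g : X → Z} (hf : DfF 𝒟 f)
    (hg : DfF 𝒟 g) : DfF 𝒟 (fun x => f x • g x) :=
  DfF.comp DSMul.smul (hf.mk hg)

@[fun_prop]
theorem DfF.inv [Group Y] [DMul 𝒟 Y] {f : X → Y} (hf : DfF 𝒟 f) :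
    DfF 𝒟 (fun x => (f x)⁻¹) := by
  have h : DfF 𝒟 (fun y : Y => y⁻¹) := by
    refine DfF.of_rel (P := fun p => p.1 * p.2 * p.1 = p.1) (by fun_prop) (fun x y => ?_)
    simp only [mul_eq_right]
    exact ⟨fun h => h ▸ mul_inv_cancel x, fun h => inv_eq_of_mul_eq_one_right h⟩
  exact h.comp hf

@[fun_prop]
theorem DfF.sub [AddGroup Y] [DAdd 𝒟 Y] {f g : X → Y} (hf : DfF 𝒟 f) (hg : DfF 𝒟 g) :
    DfF 𝒟 (fun x => f x - g x) := by
  have h : DfF 𝒟 (fun p : Y × Y => p.1 - p.2) := by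
    refine DfF.of_rel (P := fun p => p.1.1 = p.2 + p.1.2) (by fun_prop) (fun x y => ?_)
    exact sub_eq_iff_eq_add
  exact h.comp (hf.mk hg)

theorem DfF.finsetSum [Cst 𝒟] [AddCommMonoid Y] [DAdd 𝒟 Y] {κ : Type} (s : Finset κ)
    {f : X → κ → Y} (hf : ∀ k, DfF 𝒟 (fun x => f x k)) : DfF 𝒟 (fun x => ∑ k ∈ s, f x k) := by
  classical
  induction s using Finset.induction_on with
  | empty => simpa using DfF.const 0
  | insert a s ha ih =>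
    simp only [Finset.sum_insert ha]
    exact (hf a).add ih

@[fun_prop]
theorem DfF.sum [Cst 𝒟] [AddCommMonoid Y] [DAdd 𝒟 Y] {κ : Type} [Fintype κ]
    {f : X → κ → Y} (hf : ∀ k, DfF 𝒟 (fun x => f x k)) : DfF 𝒟 (fun x => ∑ k, f x k) :=
  DfF.finsetSum _ hf

theorem DfF.prodOfFn [Cst 𝒟] [Monoid Y] [DMul 𝒟 Y] {n : ℕ}
    {f : X → Fin n → Y} (hf : ∀ k, DfF 𝒟 (fun x => f x k)) :
    DfF 𝒟 (fun x => (List.ofFn (f x)).prod) := by
  induction n with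
  | zero => simpa using DfF.const 1
  | succ n ih =>
    simp only [List.ofFn_succ, List.prod_cons]
    exact (hf 0).mul (ih (f := fun x i => f x i.succ) fun k => hf k.succ)

example [Cst 𝒟] [Group Y] [DMul 𝒟 Y] (c : Y) :
    DfF 𝒟 (fun p : Y × (Fin 3 → Y) => All fun z : Y => Imp (z * p.1 = c) (∃ w : Y × Y,
      w.1 * z⁻¹ = p.2 0 ∧ AllF fun i => ¬ p.2 i = w.2)) := by
  fun_prop

end Df

end Pool.Agent.MP_c33acd_lc
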