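import Mathlib.Algebra.AffineMonoid.Basic
import Mathlib.Algebra.AffineMonoid.UniqueSums
import Mathlib.GroupTheory.Solvable
import Mathlib.Combinatorics.Matroid.Basic
import Mathlib.ModelTheory.ElementaryMaps
import Mathlib.ModelTheory.Definability
import Pool.Agent.MP_c33acd_lc.Ring

-- ======== part 0: formerly Pool.Agent.MP_c33acd_lc.Magnus
section MrgPart0

/-!
The Magnus embedding.
-/

set_option autoImplicit false

namespace Pool.Agent.MP_c33acd_lc

open Finset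

/-- Data of a Magnus embedding of a group Γ generated by n elements over a quotient Q. -/
structure Magnus (n : ℕ) (Γ Q : Type) [Group Γ] [Group Q] where
  π : Γ →* Q
  surj : Function.Surjective π
  x : Fin n → Γ
  gen : Subgroup.closure (Set.range x) = ⊤
  D : Γ → Fin n → GR Q
  D_mul : ∀ g h, D (g * h) = D g + gr (π g) • D h
  D_x : ∀ i, D (x i) = Pi.single i 1
  inj : ∀ g, π g = 1 → D g = 0 → g = 1

section Construct

variable {n : ℕ} {Q : Type} [Group Q]

theorem exists_fox (π : FreeGroup (Fin n) →* Q) :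
    ∃ D : FreeGroup (Fin n) → Fin n → GR Q, (∀ g h, D (g * h) = D g + gr (π g) • D h) ∧
      ∀ i, D (FreeGroup.of i) = Pi.single i 1 := by
  let T := Fin n → GR Q
  let e : Fin n → Equiv.Perm T := fun i =>
    { toFun := fun w => Pi.single i 1 + gr (π (FreeGroup.of i)) • w
      invFun := fun w => gr (π (FreeGroup.of i))⁻¹ • (w - Pi.single i 1)
      left_inv := fun w => by
        simp only [add_sub_cancel_left, smul_smul, ← map_mul, inv_mul_cancel, map_one, one_smul]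
      right_inv := fun w => by
        simp only [smul_smul, ← map_mul, mul_inv_cancel, map_one, one_smul, add_sub_cancel] }
  let ρ : FreeGroup (Fin n) →* Equiv.Perm T := FreeGroup.lift e
  have key : ∀ g w, ρ g w = ρ g 0 + gr (π g) • w := by
    intro g
    induction g with
    | C1 => intro w; simp
    | of i => intro w; simp [ρ, e]
    | inv_of i ih =>
      intro w
      have h1 : ∀ u, ρ (FreeGroup.of i)⁻¹ u = gr (π (FreeGroup.of i))⁻¹ • (u - Pi.single i 1) := by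
        intro u
        rw [map_inv, FreeGroup.lift_apply_of]
        rfl
      rw [h1, h1, map_inv π, ← smul_add]
      congr 1
      abel
    | mul g h ihg ihh =>
      intro w
      rw [map_mul, Equiv.Perm.mul_apply, Equiv.Perm.mul_apply, ihg, ihh, ihg (ρ h 0), smul_add,
        map_mul, map_mul, mul_smul, add_assoc]
  refine ⟨fun g => ρ g 0, fun g h => ?_, fun i => ?_⟩
  · simp only []
    rw [map_mul, Equiv.Perm.mul_apply, key]
  · simp [ρ, e]

/-- The additive map from the group ring with given values on group elements. -/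
noncomputable def wtA {B : Type} [AddCommGroup B] (w : Q → B) : GR Q →+ B :=
  (Finsupp.liftAddHom fun q => zmultiplesHom B (w q)).comp
    MonoidAlgebra.coeffAddEquiv.toAddMonoidHom

theorem wtA_single {B : Type} [AddCommGroup B] (w : Q → B) (q : Q) (k : ℤ) :
    wtA w (MonoidAlgebra.single q k) = k • w q := by
  simp [wtA]

theorem wtA_gr_mul {B : Type} [AddCommGroup B] (w : Q → B) (g : Q) (r : GR Q) :
    wtA w (gr g * r) = wtA (fun q => w (g * q)) r := by
  induction r using MonoidAlgebra.induction_linear with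
  | zero => simp
  | add x y hx hy => rw [mul_add, map_add, map_add, hx, hy]
  | single q k => rw [gr_apply, MonoidAlgebra.single_mul_single, wtA_single, wtA_single, one_mul]

theorem fox_inj (N : Subgroup (FreeGroup (Fin n))) [N.Normal]
    (D : FreeGroup (Fin n) → Fin n → GR (FreeGroup (Fin n) ⧸ N))
    (hD : ∀ g h, D (g * h) = D g + gr (QuotientGroup.mk' N g) • D h)
    (hx : ∀ i, D (FreeGroup.of i) = Pi.single i 1) (g : FreeGroup (Fin n)) (hg : g ∈ N)
    (h0 : D g = 0) : g ∈ ⁅N, N⁆ := by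
  let s : FreeGroup (Fin n) ⧸ N → FreeGroup (Fin n) := Quotient.out
  have hs : ∀ p, (s p : FreeGroup (Fin n) ⧸ N) = p := fun p => QuotientGroup.out_eq' p
  have hmem : ∀ (g : FreeGroup (Fin n)) (p : FreeGroup (Fin n) ⧸ N),
      s p * g * (s (p * g))⁻¹ ∈ N := by
    intro g p
    rw [← QuotientGroup.eq_one_iff]
    simp [hs]
  let κ : FreeGroup (Fin n) → FreeGroup (Fin n) ⧸ N → Additive (Abelianization N) :=
    fun g p => Additive.ofMul (Abelianization.of ⟨_, hmem g p⟩)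
  have hκ : ∀ g h p, κ (g * h) p = κ g p + κ h (p * g) := by
    intro g h p
    simp only [κ]
    rw [← ofMul_mul, ← map_mul]
    congr 2
    apply Subtype.ext
    simp only [Subgroup.coe_mul, QuotientGroup.mk_mul, mul_assoc, inv_mul_cancel_left]
  have hκ1 : ∀ p, κ 1 p = 0 := by
    intro p
    have := hκ 1 1 p
    simp only [mul_one, QuotientGroup.mk_one] at this
    exact add_eq_left.1 this.symm
  have hD1 : D 1 = 0 := by
    have := hD 1 1
    simp only [mul_one, map_one, one_smul] at this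
    exact add_eq_left.1 this.symm
  let θ : FreeGroup (Fin n) ⧸ N → (Fin n → GR (FreeGroup (Fin n) ⧸ N)) →
      Additive (Abelianization N) :=
    fun p t => ∑ i, wtA (fun q => κ (FreeGroup.of i) (p * q)) (t i)
  have hθadd : ∀ p t t', θ p (t + t') = θ p t + θ p t' := by
    intro p t t'
    simp only [θ, Pi.add_apply, map_add, Finset.sum_add_distrib]
  have hθsmul : ∀ p q t, θ p (gr q • t) = θ (p * q) t := by
    intro p q t
    simp only [θ, Pi.smul_apply, smul_eq_mul, wtA_gr_mul, mul_assoc]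
  have hθ0 : ∀ p, θ p 0 = 0 := by
    intro p
    simp [θ]
  have hmul : ∀ g h p, θ p (D (g * h)) = θ p (D g) + θ (p * g) (D h) := by
    intro g h p
    rw [hD, hθadd, hθsmul, QuotientGroup.mk'_apply]
  have key : ∀ g p, θ p (D g) = κ g p := by
    intro g
    induction g with
    | C1 => intro p; rw [hD1, hθ0, hκ1]
    | of i =>
      intro p
      simp only [θ, hx]
      rw [Finset.sum_eq_single i]
      · rw [Pi.single_eq_same, MonoidAlgebra.one_def, wtA_single, one_smul, mul_one]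
      · intro j _ hj
        rw [Pi.single_eq_of_ne hj, map_zero]
      · simp
    | inv_of i ih =>
      intro p
      have h1 := hmul (FreeGroup.of i)⁻¹ (FreeGroup.of i) p
      have h2 := hκ (FreeGroup.of i)⁻¹ (FreeGroup.of i) p
      rw [inv_mul_cancel] at h1 h2
      rw [hD1, hθ0, ih] at h1
      rw [hκ1] at h2
      exact add_right_cancel (h1.symm.trans h2)
    | mul g h ihg ihh =>
      intro p
      rw [hmul, ihg, ihh, hκ]
  have h1 := key g 1
  rw [h0, hθ0] at h1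
  have h2 : (⟨_, hmem g 1⟩ : N) ∈ commutator N := by
    rw [← Abelianization.ker_of, MonoidHom.mem_ker]
    exact h1.symm
  have h3 : s 1 * g * (s (1 * g))⁻¹ ∈ ⁅N, N⁆ := by
    rw [← Subgroup.map_subtype_commutator]
    exact ⟨_, h2, rfl⟩
  rw [(QuotientGroup.eq_one_iff g).2 hg, mul_one] at h3
  have h4 := (inferInstance : (⁅N, N⁆).Normal).conj_mem _ h3 (s 1)⁻¹
  simpa [mul_assoc] using h4

theorem exists_magnus (N N' : Subgroup (FreeGroup (Fin n))) [N.Normal] [N'.Normal]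
    (hN : N' = ⁅N, N⁆) :
    ∃ μ : Magnus n (FreeGroup (Fin n) ⧸ N') (FreeGroup (Fin n) ⧸ N),
      (∀ i, μ.x i = FreeGroup.of i) ∧ ∀ w : FreeGroup (Fin n), μ.π w = w := by
  obtain ⟨D, hD, hx⟩ := exists_fox (QuotientGroup.mk' N)
  have hle : N' ≤ N := by rw [hN]; exact Subgroup.commutator_le_right N N
  have hD1 : D 1 = 0 := by
    have := hD 1 1
    simp only [mul_one, map_one, one_smul] at this
    exact add_eq_left.1 this.symm
  have hDN : ∀ a ∈ N, ∀ b, D (a * b) = D a + D b := by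
    intro a ha b
    rw [hD, QuotientGroup.mk'_apply, (QuotientGroup.eq_one_iff a).2 ha, map_one, one_smul]
  have hDinv : ∀ a ∈ N, D a⁻¹ = -D a := by
    intro a ha
    have := hDN a ha a⁻¹
    rw [mul_inv_cancel, hD1] at this
    exact (neg_eq_of_add_eq_zero_right this.symm).symm
  let Z : Subgroup (FreeGroup (Fin n)) :=
    { carrier := {g | g ∈ N ∧ D g = 0}
      one_mem' := ⟨one_mem _, hD1⟩
      mul_mem' := fun {a b} ha hb => ⟨mul_mem ha.1 hb.1, by rw [hDN a ha.1, ha.2, hb.2, add_zero]⟩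
      inv_mem' := fun {a} ha => ⟨inv_mem ha.1, by rw [hDinv a ha.1, ha.2, neg_zero]⟩ }
  have hZ : N' ≤ Z := by
    rw [hN, Subgroup.commutator_le]
    intro a ha b hb
    refine ⟨mul_mem (mul_mem (mul_mem ha hb) (inv_mem ha)) (inv_mem hb), ?_⟩
    rw [commutatorElement_def, hDN _ (mul_mem (mul_mem ha hb) (inv_mem ha)), hDN _ (mul_mem ha hb),
      hDN _ ha, hDinv _ ha, hDinv _ hb]
    abel
  have hout : ∀ w : FreeGroup (Fin n), D (Quotient.out (w : FreeGroup (Fin n) ⧸ N')) = D w := by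
    intro w
    obtain ⟨h, hh⟩ := QuotientGroup.mk_out_eq_mul N' w
    rw [hh, hD, (hZ h.2).2, smul_zero, add_zero]
  refine ⟨{ π := QuotientGroup.map N' N (MonoidHom.id _) hle
            surj := fun q => ?_
            x := fun i => FreeGroup.of i
            gen := ?_
            D := fun g => D (Quotient.out g)
            D_mul := fun g h => ?_
            D_x := fun i => by rw [hout, hx]
            inj := fun g h1 h2 => ?_ }, fun i => rfl, fun w => rfl⟩
  · obtain ⟨w, rfl⟩ := QuotientGroup.mk_surjective q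
    exact ⟨w, rfl⟩
  · have : Set.range (fun i : Fin n => ((FreeGroup.of i : FreeGroup (Fin n)) : FreeGroup (Fin n) ⧸ N')) =
        QuotientGroup.mk' N' '' Set.range FreeGroup.of := by
      rw [← Set.range_comp]; rfl
    rw [this, ← MonoidHom.map_closure, FreeGroup.closure_range_of]
    exact Subgroup.map_top_of_surjective _ (QuotientGroup.mk'_surjective N')
  · obtain ⟨g, rfl⟩ := QuotientGroup.mk_surjective g
    obtain ⟨h, rfl⟩ := QuotientGroup.mk_surjective h
    rw [← QuotientGroup.mk_mul, hout, hout, hout, hD]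
    rfl
  · obtain ⟨g, rfl⟩ := QuotientGroup.mk_surjective g
    rw [hout] at h2
    rw [QuotientGroup.eq_one_iff, hN]
    exact fox_inj N D hD hx g ((QuotientGroup.eq_one_iff g).1 h1) h2

end Construct

namespace Magnus

variable {n : ℕ} {Γ Q : Type} [Group Γ] [Group Q] (μ : Magnus n Γ Q)

theorem D_one : μ.D 1 = 0 := by
  have := μ.D_mul 1 1
  simp only [mul_one, map_one, one_smul] at this
  exact add_eq_left.1 this.symm

theorem D_inv (g : Γ) : μ.D g⁻¹ = -(gr (μ.π g)⁻¹ • μ.D g) := by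
  have := μ.D_mul g⁻¹ g
  rw [inv_mul_cancel, μ.D_one, map_inv] at this
  exact eq_neg_of_add_eq_zero_left this.symm

theorem D_mul_ker {a : Γ} (ha : μ.π a = 1) (b : Γ) : μ.D (a * b) = μ.D a + μ.D b := by
  rw [μ.D_mul, ha, map_one, one_smul]

theorem D_inv_ker {a : Γ} (ha : μ.π a = 1) : μ.D a⁻¹ = -μ.D a := by
  rw [μ.D_inv, ha, inv_one, map_one, one_smul]

theorem D_zpow_ker {a : Γ} (ha : μ.π a = 1) (k : ℤ) : μ.D (a ^ k) = k • μ.D a := by
  induction k using Int.induction_on with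
  | zero => simp [μ.D_one]
  | succ k ih => rw [zpow_add_one, μ.D_mul_ker (by simp [ha]), ih, add_smul, one_smul]
  | pred k ih =>
    rw [zpow_sub_one, μ.D_mul_ker (by simp [ha]), ih, sub_smul, one_smul, μ.D_inv_ker ha,
      sub_eq_add_neg]

theorem ext {g h : Γ} (h1 : μ.π g = μ.π h) (h2 : μ.D g = μ.D h) : g = h := by
  rw [← inv_mul_eq_one]
  refine μ.inj _ (by simp [h1]) ?_
  rw [μ.D_mul, μ.D_inv, map_inv μ.π, h2, neg_add_cancel]

theorem ker_comm {a b : Γ} (ha : μ.π a = 1) (hb : μ.π b = 1) : a * b = b * a :=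
  μ.ext (by simp [ha, hb]) (by rw [μ.D_mul_ker ha, μ.D_mul_ker hb, add_comm])

theorem D_conj (g : Γ) {b : Γ} (hb : μ.π b = 1) : μ.D (g * b * g⁻¹) = gr (μ.π g) • μ.D b := by
  rw [μ.D_mul, μ.D_mul, μ.D_inv, map_mul, hb, mul_one, smul_neg, smul_smul, ← map_mul,
    mul_inv_cancel, map_one, one_smul]
  abel

theorem induction {P : Γ → Prop} (h1 : P 1) (hx : ∀ i, P (μ.x i)) (hmul : ∀ g h, P g → P h → P (g * h))
    (hinv : ∀ g, P g → P g⁻¹) (g : Γ) : P g := by
  have hg : g ∈ Subgroup.closure (Set.range μ.x) := by rw [μ.gen]; trivial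
  induction hg using Subgroup.closure_induction with
  | mem x hx' => obtain ⟨i, rfl⟩ := hx'; exact hx i
  | one => exact h1
  | mul x y _ _ hx hy => exact hmul _ _ hx hy
  | inv x _ hx => exact hinv _ hx

theorem fund (g : Γ) : ∑ i, μ.D g i * (gr (μ.π (μ.x i)) - 1) = gr (μ.π g) - 1 := by
  induction g using μ.induction with
  | h1 => simp [μ.D_one]
  | hx i =>
    rw [μ.D_x, Finset.sum_eq_single i]
    · simp
    · intro j _ hj
      simp [hj]
    · simp
  | hmul g h ihg ihh =>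
    simp only [μ.D_mul, Pi.add_apply, Pi.smul_apply, smul_eq_mul, add_mul, Finset.sum_add_distrib,
      mul_assoc, ← Finset.mul_sum, ihg, ihh, map_mul]
    noncomm_ring
  | hinv g ih =>
    simp only [μ.D_inv, Pi.neg_apply, Pi.smul_apply, smul_eq_mul, neg_mul, Finset.sum_neg_distrib,
      mul_assoc, ← Finset.mul_sum, ih]
    rw [mul_sub, ← map_mul, inv_mul_cancel, map_one, mul_one, neg_sub, map_inv μ.π]

theorem eq_one_of_D {g : Γ} (h : μ.D g = 0) : g = 1 := by
  have h1 := μ.fund g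
  simp only [h, Pi.zero_apply, zero_mul, Finset.sum_const_zero] at h1
  refine μ.inj g ?_ h
  exact gr_injective ((sub_eq_zero.1 h1.symm).trans (map_one gr).symm)

/-- The relation module. -/
def V : Submodule (GR Q) (Fin n → GR Q) where
  carrier := {t | ∃ b, μ.π b = 1 ∧ μ.D b = t}
  zero_mem' := ⟨1, map_one _, μ.D_one⟩
  add_mem' := by
    rintro _ _ ⟨a, ha, rfl⟩ ⟨b, hb, rfl⟩
    exact ⟨a * b, by simp [ha, hb], μ.D_mul_ker ha b⟩
  smul_mem' := by
    rintro r _ ⟨b, hb, rfl⟩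
    induction r using MonoidAlgebra.induction_linear with
    | zero => exact ⟨1, map_one _, by rw [μ.D_one, zero_smul]⟩
    | add x y hx hy =>
      obtain ⟨a, ha, h1⟩ := hx
      obtain ⟨a', ha', h2⟩ := hy
      exact ⟨a * a', by simp [ha, ha'], by rw [μ.D_mul_ker ha, h1, h2, add_smul]⟩
    | single q k =>
      obtain ⟨g, rfl⟩ := μ.surj q
      refine ⟨g * b ^ k * g⁻¹, by simp [hb], ?_⟩
      rw [μ.D_conj g (by simp [hb]), μ.D_zpow_ker hb, smul_comm, ← smul_assoc, gr_apply,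
        MonoidAlgebra.smul_single, smul_eq_mul, mul_one]

theorem gr_sub_one_ne {q : Q} (hq : q ≠ 1) : (gr q : GR Q) - 1 ≠ 0 := fun h =>
  hq (gr_injective ((sub_eq_zero.1 h).trans (map_one gr).symm))

theorem fix_eq_zero [NoZeroDivisors (GR Q)] {q : Q} (hq : q ≠ 1) {t : Fin n → GR Q}
    (h : gr q • t = t) : t = 0 := by
  funext i
  have h1 : (gr q - 1) * t i = 0 := by
    rw [sub_mul, one_mul, sub_eq_zero]
    exact congrFun h i
  exact (mul_eq_zero.1 h1).resolve_left (gr_sub_one_ne hq)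

theorem tf [NoZeroDivisors (GR Q)] {y b : Γ} (hy : μ.π y ≠ 1) (hb : μ.π b = 1)
    (h : y * b = b * y) : b = 1 := by
  have h1 : y * b * y⁻¹ = b := by rw [h, mul_inv_cancel_right]
  have h2 := μ.D_conj y hb
  rw [h1] at h2
  exact μ.inj b hb (fix_eq_zero hy h2.symm)

theorem centralizer [NoZeroDivisors (GR Q)] {y g : Γ} {j : Fin n} (hj : μ.D y j = 1)
    (hy : μ.π y ≠ 1) (h : g * y = y * g) : g ∈ Subgroup.zpowers y := by
  classical
  have h1 := congrFun (congrArg μ.D h) j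
  simp only [μ.D_mul, Pi.add_apply, Pi.smul_apply, smul_eq_mul, hj, mul_one] at h1
  let w : Q → ℤ := fun q => if q ∈ Subgroup.zpowers (μ.π y) then 1 else 0
  have hw : ∀ q, w (μ.π y * q) = 1 * w q := by
    intro q
    simp only [w, one_mul, Subgroup.mul_mem_cancel_left _ (Subgroup.mem_zpowers _)]
  have h2 := congrArg (wt w) h1
  rw [map_add, map_add, wt_gr_mul w _ 1 hw, wt_gr, wt_one, one_mul, add_comm,
    add_left_inj] at h2
  have h3 : μ.π g ∈ Subgroup.zpowers (μ.π y) := by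
    by_contra h4
    simp [w, h4] at h2
  obtain ⟨k, hk⟩ := Subgroup.mem_zpowers_iff.1 h3
  have h4 : g * (y ^ k)⁻¹ = 1 := by
    refine μ.tf hy (by simp [hk]) ?_
    have h5 : Commute y g := h.symm
    exact (h5.mul_right ((Commute.refl y).zpow_right k).inv_right).eq
  exact Subgroup.mem_zpowers_iff.2 ⟨k, (mul_inv_eq_one.1 h4).symm⟩

theorem zpow_inj {b : Γ} (hb : μ.π b = 1) (hb1 : b ≠ 1) (k l : ℤ) (h : b ^ k = b ^ l) : k = l := by
  have h1 := congrArg μ.D h
  rw [μ.D_zpow_ker hb, μ.D_zpow_ker hb] at h1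
  have h2 : μ.D b ≠ 0 := fun h0 => hb1 (μ.inj b hb h0)
  obtain ⟨i, hi⟩ := Function.ne_iff.1 h2
  have h3 : (μ.D b i).coeff ≠ 0 := by simpa using hi
  obtain ⟨q, hq⟩ := Finsupp.ne_iff.1 h3
  have h4 := congrArg (fun t : Fin n → GR Q => (t i).coeff q) h1
  simp only [Pi.smul_apply, MonoidAlgebra.coeff_smul, Finsupp.smul_apply, smul_eq_mul] at h4
  exact mul_right_cancel₀ hq h4

include μ in
theorem uniqueProds [UniqueProds Q] : UniqueProds Γ := by
  let f : μ.π.ker →ₙ* Multiplicative (Fin n → Q →₀ ℤ) :=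
    { toFun := fun b => Multiplicative.ofAdd fun i => (μ.D b i).coeff
      map_mul' := fun a b => by
        rw [← ofAdd_add]
        congr 1
        funext i
        rw [Subgroup.coe_mul, μ.D_mul_ker a.2]
        rfl }
  have hf : Function.Injective f := by
    intro a b hab
    refine Subtype.ext (μ.ext (a.2.trans b.2.symm) (funext fun i => ?_))
    exact MonoidAlgebra.ext (congrFun (Multiplicative.ofAdd.injective hab) i)
  have : UniqueProds μ.π.ker := UniqueProds.of_injective_mulHom f hf inferInstance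
  exact uniqueProds_ext μ.π

include μ in
theorem src (hQ : ∀ a b : Q, a * b = b * a) : StrongRankCondition (GR Γ) :=
  src_ext μ.π μ.surj hQ fun a b => Subtype.ext (μ.ker_comm a.2 b.2)

theorem hopf [NoZeroDivisors (GR Q)] [StrongRankCondition (GR Q)] (α : Γ →* Γ) (β : Q →* Q)
    (hαβ : ∀ g, μ.π (α g) = β (μ.π g)) (hα : Function.Surjective α)
    (hβ : Function.Injective β) : Function.Injective α := by
  let b : GR Q →+* GR Q := MonoidAlgebra.mapDomainRingHom ℤ β
  have hb : ∀ q, b (gr q) = gr (β q) := fun q => by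
    simp [b, gr_apply]
  have hbinj : Function.Injective b := MonoidAlgebra.mapDomain_injective hβ
  let J : (Fin n → GR Q) →ₗ[GR Q] (Fin n → GR Q) :=
    Fintype.linearCombination (GR Q) fun j => μ.D (α (μ.x j))
  have chain : ∀ g, μ.D (α g) = J fun j => b (μ.D g j) := by
    intro g
    induction g using μ.induction with
    | h1 =>
      rw [map_one, μ.D_one]
      simp only [Pi.zero_apply, map_zero]
      exact (map_zero J).symm
    | hx i =>
      have : (fun j => b (μ.D (μ.x i) j)) = Pi.single i 1 := by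
        funext j
        rw [μ.D_x]
        by_cases hj : j = i
        · subst hj; simp
        · simp [hj]
      rw [this]
      simp [J]
    | hmul g h ihg ihh =>
      rw [map_mul, μ.D_mul, ihg, ihh, ← map_smul, ← map_add]
      congr 1
      funext j
      simp only [μ.D_mul, Pi.add_apply, Pi.smul_apply, smul_eq_mul, map_add, map_mul, hb, hαβ]
    | hinv g ih =>
      rw [map_inv, μ.D_inv, ih, ← map_smul, ← map_neg]
      congr 1
      funext j
      simp only [μ.D_inv, Pi.neg_apply, Pi.smul_apply, smul_eq_mul, map_neg, map_mul, hb, hαβ,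
        map_inv]
  have hJ : ∀ v, J v = 0 → v = 0 := by
    intro v hv
    by_contra hne
    have : ∀ i, ∃ w, J w = Pi.single i 1 := by
      intro i
      obtain ⟨g, hg⟩ := hα (μ.x i)
      exact ⟨_, by rw [← chain, hg, μ.D_x]⟩
    choose w hw using this
    have hli : LinearIndependent (GR Q) (fun o : Option (Fin n) => o.elim v w) := by
      rw [Fintype.linearIndependent_iff]
      intro r hr
      rw [Fintype.sum_option] at hr
      simp only [Option.elim_none, Option.elim_some] at hr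
      have h1 := congrArg J hr
      simp only [map_add, map_smul, hv, smul_zero, map_sum, hw, zero_add, map_zero] at h1
      have h2 : ∀ i, r (some i) = 0 := by
        intro i
        have := congrFun h1 i
        rw [Finset.sum_apply, Finset.sum_eq_single i] at this
        · simpa using this
        · intro j _ hj
          simp [hj.symm]
        · simp
      simp only [h2, zero_smul, Finset.sum_const_zero, add_zero] at hr
      obtain ⟨i, hi⟩ := Function.ne_iff.1 hne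
      have h3 : r none * v i = 0 := congrFun hr i
      rintro (_ | i)
      · exact (mul_eq_zero.1 h3).resolve_right hi
      · exact h2 i
    have := hli.fintype_card_le_finrank
    simp at this
  rw [injective_iff_map_eq_one]
  intro g hg
  have h1 : μ.π g = 1 := hβ (by rw [← hαβ, hg, map_one, map_one])
  have h2 := chain g
  rw [hg, μ.D_one] at h2
  refine μ.inj g h1 (funext fun j => hbinj ?_)
  rw [Pi.zero_apply, map_zero]
  exact congrFun (hJ _ h2.symm) j

end Magnus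

end Pool.Agent.MP_c33acd_lc

end MrgPart0

-- ======== part 1: formerly Pool.Agent.MP_c33acd_lc.Star
section MrgPart1

/-!
Affine actions on prime fields and the separation property.
-/

set_option autoImplicit false

namespace Pool.Agent.MP_c33acd_lc

open Finset

variable {n : ℕ} {Γ Q : Type} [Group Γ] [Group Q]

/-- Finitely many nontrivial elements survive under one homomorphism to the integers. -/
def Lin (Q : Type) [Group Q] : Prop :=
  ∀ Y : Finset Q, (1 : Q) ∉ Y → ∃ ℓ : Q →* Multiplicative ℤ, ∀ m ∈ Y, ℓ m ≠ 1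

/-- The ring homomorphism attached to a character. -/
noncomputable def wtHom {A : Type} [CommRing A] (χ : Q →* A) : GR Q →+* A :=
  MonoidAlgebra.liftNCRingHom (Int.castRingHom A) χ fun _ _ => Commute.all _ _

theorem wtHom_apply {A : Type} [CommRing A] (χ : Q →* A) (r : GR Q) : wtHom χ r = wt χ r := rfl

theorem wtHom_gr {A : Type} [CommRing A] (χ : Q →* A) (q : Q) : wtHom χ (gr q) = χ q := by
  rw [wtHom_apply, wt_gr]

theorem laurent_cast {ι K : Type} [Field K] (S : Finset ι) (e : ι → ℤ) (a : ι → ℤ) (m J : ℕ)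
    (hm : (m : K) ≠ 0) (hJ : ∀ i ∈ S, 0 ≤ e i + J) :
    (∑ i ∈ S, (a i : K) * (m : K) ^ e i) * (m : K) ^ J =
      ((∑ i ∈ S, a i * (m : ℤ) ^ (e i + J).toNat : ℤ) : K) := by
  push_cast
  rw [Finset.sum_mul]
  refine Finset.sum_congr rfl fun i hi => ?_
  rw [mul_assoc, ← zpow_natCast, ← zpow_natCast, ← zpow_add₀ hm, Int.toNat_of_nonneg (hJ i hi)]

theorem exists_prime_char (hL : Lin Q) {u : GR Q} (hu : u ≠ 0) :
    ∃ p : ℕ, p.Prime ∧ ∃ χ : Q →* ZMod p, wtHom χ u ≠ 0 := by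
  classical
  set S := u.coeff.support with hS
  obtain ⟨ℓ, hℓ⟩ := hL (((S ×ˢ S).image fun p => p.1 * p.2⁻¹).erase 1) (Finset.notMem_erase _ _)
  let e : Q → ℤ := fun q => (ℓ q).toAdd
  have he : Set.InjOn e S := by
    intro a ha b hb hab
    by_contra hne
    refine hℓ (a * b⁻¹) (Finset.mem_erase.2 ⟨fun h => hne (mul_inv_eq_one.1 h),
      Finset.mem_image.2 ⟨(a, b), Finset.mem_product.2 ⟨ha, hb⟩, rfl⟩⟩) ?_
    rw [map_mul, map_inv, mul_inv_eq_one]
    exact Multiplicative.toAdd.injective hab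
  obtain ⟨q₀, hq₀⟩ : S.Nonempty := by
    rw [hS, Finsupp.support_nonempty_iff]
    simpa using hu
  obtain ⟨m, hm, hne⟩ := laurent_ne_zero S e he (fun q => u.coeff q) hq₀
    (Finsupp.mem_support_iff.1 hq₀)
  let J : ℕ := S.sup fun q => (e q).natAbs
  have hJ : ∀ q ∈ S, 0 ≤ e q + J := by
    intro q hq
    have : (e q).natAbs ≤ J := Finset.le_sup (f := fun q => (e q).natAbs) hq
    omega
  set z : ℤ := ∑ q ∈ S, u.coeff q * (m : ℤ) ^ (e q + J).toNat with hz
  have hm0 : (m : ℚ) ≠ 0 := by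
    have : (0 : ℚ) < m := by exact_mod_cast lt_of_lt_of_le two_pos hm
    exact this.ne'
  have hz0 : z ≠ 0 := by
    intro h
    have h1 := laurent_cast (K := ℚ) S e (fun q => u.coeff q) m J hm0 hJ
    rw [← hz, h, Int.cast_zero] at h1
    exact mul_ne_zero hne (pow_ne_zero _ hm0) h1
  obtain ⟨p, hp, hprime⟩ := Nat.exists_infinite_primes (z.natAbs + m + 1)
  have : Fact p.Prime := ⟨hprime⟩
  have hmp : (m : ZMod p) ≠ 0 := by
    rw [Ne, ZMod.natCast_eq_zero_iff]
    intro h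
    have := Nat.le_of_dvd (by omega) h
    omega
  have hzp : (z : ZMod p) ≠ 0 := by
    rw [Ne, ZMod.intCast_zmod_eq_zero_iff_dvd]
    intro h
    have := Nat.le_of_dvd (Int.natAbs_pos.2 hz0) (Int.natCast_dvd.1 h)
    omega
  let χ : Q →* ZMod p :=
    { toFun := fun q => (m : ZMod p) ^ e q
      map_one' := by simp [e]
      map_mul' := fun a b => by simp only [e, map_mul, toAdd_mul, zpow_add₀ hmp] }
  refine ⟨p, hprime, χ, fun h => hzp ?_⟩
  have h1 := laurent_cast (K := ZMod p) S e (fun q => u.coeff q) m J hmp hJ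
  rw [wtHom_apply, wt_eq_sum] at h
  rw [← hz] at h1
  rw [← h1]
  exact mul_eq_zero_of_left h _

theorem natCast_gr_injective : Function.Injective (Nat.cast : ℕ → GR Q) := by
  intro a b h
  have := congrArg (fun r : GR Q => r.coeff 1) h
  simpa using this

theorem exists_comb [UniqueProds Q] (hQ : ∀ a b : Q, a * b = b * a)
    (Y : Finset (Fin n → GR Q)) (hY : ∀ t ∈ Y, t ≠ 0) :
    ∃ N : ℕ, ∀ t ∈ Y, ∑ i : Fin n, t i * (N : GR Q) ^ (i : ℕ) ≠ 0 := by
  classical
  let : CommGroup Q := { ‹Group Q› with mul_comm := hQ }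
  let P : (Fin n → GR Q) → Polynomial (GR Q) := fun t => ∑ i : Fin n, Polynomial.monomial i (t i)
  have hP : ∀ t ∈ Y, P t ≠ 0 := by
    intro t ht h
    refine hY t ht (funext fun i => ?_)
    have := congrArg (fun p => Polynomial.coeff p i) h
    simp only [P, Polynomial.finsetSum_coeff, Polynomial.coeff_monomial,
      Polynomial.coeff_zero] at this
    rw [Finset.sum_eq_single i] at this
    · simpa using this
    · intro j _ hj
      rw [if_neg fun h => hj (Fin.ext h)]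
    · simp
  have hprod : ∏ t ∈ Y, P t ≠ 0 := Finset.prod_ne_zero_iff.2 hP
  by_contra H
  push Not at H
  refine hprod (Polynomial.eq_zero_of_infinite_isRoot _ ?_)
  refine (Set.infinite_range_of_injective natCast_gr_injective).mono ?_
  rintro _ ⟨N, rfl⟩
  obtain ⟨t, ht, h⟩ := H N
  simp only [Set.mem_ofPred_eq, Polynomial.IsRoot.def, Polynomial.eval_prod]
  refine Finset.prod_eq_zero ht ?_
  simp only [P, Polynomial.eval_finsetSum, Polynomial.eval_monomial]
  exact h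

theorem exists_prime_char_finset [UniqueProds Q] (hQ : ∀ a b : Q, a * b = b * a) (hL : Lin Q)
    {ι : Type} (Y : Finset ι) (u : ι → GR Q) (hY : ∀ t ∈ Y, u t ≠ 0) :
    ∃ p : ℕ, p.Prime ∧ ∃ χ : Q →* ZMod p, ∀ t ∈ Y, wtHom χ (u t) ≠ 0 := by
  let : CommGroup Q := { ‹Group Q› with mul_comm := hQ }
  obtain ⟨p, hp, χ, h⟩ := exists_prime_char hL (Finset.prod_ne_zero_iff.2 hY)
  have : Fact p.Prime := ⟨hp⟩
  rw [map_prod] at h
  exact ⟨p, hp, χ, Finset.prod_ne_zero_iff.1 h⟩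

namespace Magnus

variable (μ : Magnus n Γ Q)

theorem exists_affine [UniqueProds Q] (hQ : ∀ a b : Q, a * b = b * a) (hL : Lin Q)
    (Y : Finset Γ) (hY : (1 : Γ) ∉ Y) :
    ∃ p : ℕ, p.Prime ∧ ∃ (χ : Q →* ZMod p) (τ : Γ → ZMod p),
      (∀ g h, τ (g * h) = τ g + χ (μ.π g) * τ h) ∧ ∀ m ∈ Y, τ m ≠ 0 := by
  classical
  obtain ⟨N, hN⟩ := exists_comb hQ (Y.image μ.D) (by
    intro t ht h
    obtain ⟨m, hm, rfl⟩ := Finset.mem_image.1 ht
    exact hY (μ.eq_one_of_D h ▸ hm))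
  obtain ⟨p, hp, χ, h⟩ := exists_prime_char_finset hQ hL Y
    (fun g => ∑ i : Fin n, μ.D g i * (N : GR Q) ^ (i : ℕ))
    (fun m hm => hN _ (Finset.mem_image_of_mem _ hm))
  refine ⟨p, hp, χ, fun g => wtHom χ (∑ i : Fin n, μ.D g i * (N : GR Q) ^ (i : ℕ)),
    fun g h => ?_, h⟩
  simp only [μ.D_mul, Pi.add_apply, Pi.smul_apply, smul_eq_mul, add_mul, Finset.sum_add_distrib,
    mul_assoc, ← Finset.mul_sum, map_add, map_mul, wtHom_gr]

theorem star [UniqueProds Q] (hQ : ∀ a b : Q, a * b = b * a) (hL : Lin Q) {c : Γ}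
    (hc : μ.π c = 1) (hc1 : c ≠ 1) : ∃ K, Star c K := by
  classical
  refine ⟨Fintype.card (Option (Fin 3 × Fin n)), fun S => ?_⟩
  obtain ⟨p, hp, χ, τ, hτ, hY⟩ := μ.exists_affine hQ hL
    (insert c (((S ×ˢ S).image fun p => p.1 * p.2⁻¹).erase 1)) (by simp [hc1.symm])
  have : Fact p.Prime := ⟨hp⟩
  have hτ1 : τ 1 = 0 := by
    have := hτ 1 1
    simp only [mul_one, map_one, one_mul] at this
    exact add_eq_left.1 this.symm
  have hχ : ∀ q, χ q ≠ 0 := fun q => ((Group.isUnit q).map χ).ne_zero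
  have hτc : τ c ≠ 0 := hY c (Finset.mem_insert_self _ _)
  have hτpow : ∀ j : ℕ, τ (c ^ j) = j * τ c := by
    intro j
    induction j with
    | zero => simp [hτ1]
    | succ j ih => rw [pow_succ', hτ, hc, map_one, ih]; push_cast; ring
  let St : Subgroup Γ :=
    { carrier := {g | τ g = 0}
      one_mem' := hτ1
      mul_mem' := fun {a b} ha hb => by
        simp only [Set.mem_ofPred_eq] at ha hb ⊢
        rw [hτ, ha, hb, mul_zero, add_zero]
      inv_mem' := fun {a} ha => by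
        simp only [Set.mem_ofPred_eq] at ha ⊢
        have := hτ a⁻¹ a
        rw [inv_mul_cancel, hτ1, ha, mul_zero, add_zero] at this
        exact this.symm }
  have hJ : ∀ g, ∃ j : ℕ, g * (c ^ j)⁻¹ ∈ St := by
    intro g
    obtain ⟨j, hj⟩ : ∃ j : ℕ, (j : ZMod p) = τ g * (χ (μ.π g) * τ c)⁻¹ :=
      ⟨_, ZMod.natCast_zmod_val _⟩
    refine ⟨j, ?_⟩
    have h1 := hτ (g * (c ^ j)⁻¹) (c ^ j)
    rw [inv_mul_cancel_right, hτpow, map_mul, map_inv, map_pow, hc, one_pow, inv_one, mul_one,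
      hj] at h1
    have h2 := hχ (μ.π g)
    change τ _ = 0
    field_simp at h1
    linear_combination -h1
  choose J hJ using hJ
  let h : Fin n → Γ := fun i => μ.x i * (c ^ J (μ.x i))⁻¹
  let gen : Option (Fin 3 × Fin n) → Γ := fun o => o.elim (c ^ p) fun q =>
    ![h q.2, (h q.2)⁻¹ * c * h q.2 * (c ^ J ((h q.2)⁻¹ * c * h q.2))⁻¹,
      h q.2 * c * (h q.2)⁻¹ * (c ^ J (h q.2 * c * (h q.2)⁻¹))⁻¹] q.1
  let e := Fintype.equivFin (Option (Fin 3 × Fin n))
  have hrange : Set.range (gen ∘ e.symm) = Set.range gen := e.symm.surjective.range_comp gen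
  let H : Subgroup Γ := Subgroup.closure (Set.range gen)
  have hH : ∀ o, gen o ∈ H := fun o => Subgroup.subset_closure ⟨o, rfl⟩
  have hle : H ≤ St := by
    rw [Subgroup.closure_le]
    rintro _ ⟨_ | ⟨a, i⟩, rfl⟩
    · change τ (c ^ p) = 0
      rw [hτpow, ZMod.natCast_self, zero_mul]
    · fin_cases a
      · exact hJ _
      · exact hJ _
      · exact hJ _
  refine ⟨gen ∘ e.symm, ?_, ?_⟩
  · simp only [InCl, hrange]
    let Z : Γ → Prop := fun g => ∃ j : ℕ, g * (c ^ j)⁻¹ ∈ H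
    have hZc : ∀ g (a : ℕ), Z g → Z (g * c ^ a) := by
      rintro g a ⟨j, hj⟩
      refine ⟨j + a, ?_⟩
      rwa [pow_add, mul_inv_rev, mul_assoc, mul_inv_cancel_left]
    have hZc' : ∀ g (a : ℕ), Z g → Z (g * (c ^ a)⁻¹) := by
      rintro g a ⟨j, hj⟩
      refine ⟨j + (p - 1) * a, ?_⟩
      have h1 : (c ^ p) ^ a ∈ H := pow_mem (hH none) a
      have h2 : g * (c ^ a)⁻¹ * (c ^ (j + (p - 1) * a))⁻¹ = g * (c ^ j)⁻¹ * ((c ^ p) ^ a)⁻¹ := by
        rw [mul_assoc, mul_assoc, ← mul_inv_rev, ← mul_inv_rev, ← pow_mul, ← pow_add, ← pow_add]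
        congr 3
        obtain ⟨p', rfl⟩ : ∃ p', p = p' + 1 := ⟨p - 1, (Nat.succ_pred_eq_of_pos hp.pos).symm⟩
        rw [Nat.add_sub_cancel]
        ring
      rw [h2]
      exact mul_mem hj (inv_mem h1)
    have hZy : ∀ g y (a : ℕ), y ∈ H → y⁻¹ * c * y * (c ^ a)⁻¹ ∈ H → Z g → Z (g * y) := by
      rintro g y a hy hν ⟨j, hj⟩
      refine ⟨a * j, ?_⟩
      have hcomm : Commute (y⁻¹ * c * y) (c ^ a)⁻¹ := μ.ker_comm (by simp [hc]) (by simp [hc])
      have h1 : (y⁻¹ * c * y * (c ^ a)⁻¹) ^ j = y⁻¹ * c ^ j * y * (c ^ (a * j))⁻¹ := by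
        rw [hcomm.mul_pow, inv_pow, ← pow_mul]
        congr 1
        have := conj_pow (i := j) (a := y⁻¹) (b := c)
        rwa [inv_inv] at this
      have h2 : g * y * (c ^ (a * j))⁻¹ =
          g * (c ^ j)⁻¹ * (c ^ j * y * (c ^ (a * j))⁻¹) := by group
      have h3 : c ^ j * y * (c ^ (a * j))⁻¹ = y * (y⁻¹ * c * y * (c ^ a)⁻¹) ^ j := by
        rw [h1]; group
      rw [h2, h3]
      exact mul_mem hj (mul_mem hy (pow_mem hν j))
    intro g
    have hg : g ∈ Subgroup.closure (Set.range μ.x) := by rw [μ.gen]; trivial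
    change Z g
    induction hg using Subgroup.closure_induction_right with
    | one => exact ⟨0, by simp⟩
    | mul_right g _ y hy ih =>
      obtain ⟨i, rfl⟩ := hy
      have h1 : g * μ.x i = g * h i * c ^ J (μ.x i) := by simp [h, mul_assoc]
      rw [h1]
      exact hZc _ _ (hZy g (h i) _ (hH (some (0, i))) (hH (some (1, i))) ih)
    | mul_inv_cancel g _ y hy ih =>
      obtain ⟨i, rfl⟩ := hy
      have h1 : g * (μ.x i)⁻¹ = g * (c ^ J (μ.x i))⁻¹ * (h i)⁻¹ := by simp [h, mul_assoc]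
      rw [h1]
      refine hZy _ (h i)⁻¹ (J (h i * c * (h i)⁻¹)) (inv_mem (hH (some (0, i)))) ?_ (hZc' _ _ ih)
      rw [inv_inv]
      exact hH (some (2, i))
  · intro s hs s' hs' hmem
    simp only [InCl, hrange] at hmem
    by_contra hne
    refine hY (s * s'⁻¹) (Finset.mem_insert_of_mem (Finset.mem_erase.2
      ⟨fun h => hne (mul_inv_eq_one.1 h),
        Finset.mem_image.2 ⟨(s, s'), Finset.mem_product.2 ⟨hs, hs'⟩, rfl⟩⟩)) (hle hmem)

section Trivial

variable [Subsingleton Q]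

theorem eq_cast (u : GR Q) : u = (wt (fun _ : Q => (1 : ℤ)) u : ℤ) := by
  induction u using MonoidAlgebra.induction_linear with
  | zero => simp
  | add x y hx hy => rw [map_add, Int.cast_add, ← hx, ← hy]
  | single q k =>
    rw [wt_single, Subsingleton.elim q 1, MonoidAlgebra.intCast_def]
    simp

theorem lin_trivial : Lin Q := fun _ hY =>
  ⟨1, fun m hm => absurd (Subsingleton.elim m 1 ▸ hm) hY⟩

include μ in
theorem comm (a b : Γ) : a * b = b * a :=
  μ.ker_comm (Subsingleton.elim _ _) (Subsingleton.elim _ _)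

/-- The exponent sum of a generator. -/
noncomputable def expo (i : Fin n) : Γ →* Multiplicative ℤ where
  toFun g := Multiplicative.ofAdd (wt (fun _ : Q => (1 : ℤ)) (μ.D g i))
  map_one' := by simp [μ.D_one]
  map_mul' a b := by
    rw [μ.D_mul_ker (Subsingleton.elim _ _), Pi.add_apply, map_add, ofAdd_add]

theorem expo_x (i j : Fin n) :
    μ.expo i (μ.x j) = Multiplicative.ofAdd (if i = j then 1 else 0) := by
  change Multiplicative.ofAdd (wt (fun _ : Q => (1 : ℤ)) (μ.D (μ.x j) i)) = _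
  rw [μ.D_x]
  by_cases h : i = j
  · subst h
    rw [Pi.single_eq_same, wt_one, if_pos rfl]
  · rw [Pi.single_eq_of_ne h, map_zero, if_neg h]

theorem eq_of_expo {a b : Γ} (h : ∀ i, μ.expo i a = μ.expo i b) : a = b := by
  refine μ.ext (Subsingleton.elim _ _) (funext fun i => ?_)
  rw [eq_cast (μ.D a i), eq_cast (μ.D b i)]
  exact congrArg _ (Multiplicative.ofAdd.injective (h i))

theorem eq_prod (g : Γ) : (List.ofFn fun i => μ.x i ^ (μ.expo i g).toAdd).prod = g := by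
  refine μ.eq_of_expo fun j => ?_
  rw [map_list_prod, List.map_ofFn, List.prod_ofFn, Finset.prod_eq_single j]
  · simp [μ.expo_x, ← ofAdd_zsmul]
  · intro i _ hi
    simp [μ.expo_x, hi.symm]
  · simp

include μ in
theorem lin : Lin Γ := by
  classical
  intro Y hY
  have : UniqueProds Q := ⟨fun {A B} ⟨a, ha⟩ ⟨b, hb⟩ => ⟨a, ha, b, hb, UniqueMul.of_subsingleton⟩⟩
  obtain ⟨N, hN⟩ := exists_comb (fun a b : Q => Subsingleton.elim _ _) (Y.image μ.D) (by
    intro t ht h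
    obtain ⟨m, hm, rfl⟩ := Finset.mem_image.1 ht
    exact hY (μ.eq_one_of_D h ▸ hm))
  refine ⟨{ toFun := fun g => Multiplicative.ofAdd
              (wt (fun _ : Q => (1 : ℤ)) (∑ i : Fin n, μ.D g i * (N : GR Q) ^ (i : ℕ)))
            map_one' := by simp [μ.D_one]
            map_mul' := fun a b => ?_ }, fun m hm h => ?_⟩
  · simp only [μ.D_mul_ker (Subsingleton.elim _ _), Pi.add_apply, add_mul, Finset.sum_add_distrib,
      map_add, ofAdd_add]
  · refine hN _ (Finset.mem_image_of_mem _ hm) ?_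
    have h1 : wt (fun _ : Q => (1 : ℤ)) (∑ i : Fin n, μ.D m i * (N : GR Q) ^ (i : ℕ)) = 0 :=
      Multiplicative.ofAdd.injective h
    rw [eq_cast (∑ i : Fin n, μ.D m i * (N : GR Q) ^ (i : ℕ)), h1, Int.cast_zero]

end Trivial

end Magnus

end Pool.Agent.MP_c33acd_lc

end MrgPart1

-- ======== part 2: formerly Pool.Agent.MP_c33acd_lc.Step
section MrgPart2

/-!
The free solvable group of class three is definably enumerated.
-/

set_option autoImplicit false

namespace Pool.Agent.MP_c33acd_lc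

variable {𝒟 : DefStr} [Cst 𝒟]

/-- Ordered product of a finite family. -/
def prodFn {Y : Type} [Monoid Y] {m : ℕ} (f : Fin m → Y) : Y := (List.ofFn f).prod

@[fun_prop]
theorem DfF.prodFn {X Y : Type} [Srt 𝒟 X] [Srt 𝒟 Y] [Monoid Y] [DMul 𝒟 Y] {m : ℕ}
    {f : X → Fin m → Y} (hf : DfF 𝒟 f) : DfF 𝒟 (fun x => prodFn (f x)) :=
  DfF.prodOfFn fun k => by fun_prop

namespace Magnus

section Step

variable {n : ℕ} {Γ Q : Type} [Group Γ] [Group Q] (μ : Magnus n Γ Q) [NoZeroDivisors (GR Q)]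
variable [Srt 𝒟 Γ] [DMul 𝒟 Γ]

theorem dfF_ker : DfF 𝒟 (fun g : Γ => μ.π g = 1) := by
  by_cases h : ∃ b, μ.π b = 1 ∧ b ≠ 1
  · obtain ⟨b, hb, hb1⟩ := h
    refine DfF.congr (P := fun g => g * b = b * g) (by fun_prop) (fun g => ⟨fun hg =>
      μ.ker_comm hg hb, fun hg => ?_⟩)
    by_contra hne
    exact hb1 (μ.tf hne hb hg)
  · push Not at h
    exact DfF.congr (P := fun g => g = 1) (by fun_prop)
      (fun g => ⟨h g, fun hg => by rw [hg, map_one]⟩)

theorem exists_quot_srt : ∃ _ : Srt 𝒟 Q, DMul 𝒟 Q ∧ DfF 𝒟 μ.π := by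
  have hk := μ.dfF_ker (𝒟 := 𝒟)
  obtain ⟨S, hS⟩ := exists_srt (𝒟 := 𝒟) (fun (g : Γ) (q : Q) => μ.π g = q)
    (fun _ _ _ h h' => h.symm.trans h') μ.surj (by
      refine DfF.congr (P := fun p : Γ × Γ => μ.π (p.1 * p.2⁻¹) = 1)
        (DfF.comp hk (by fun_prop)) (fun p => ?_)
      rw [map_mul, map_inv, mul_inv_eq_one]
      exact ⟨fun ⟨_, h1, h2⟩ => h1.trans h2.symm, fun h => ⟨_, h, rfl⟩⟩)
  have hπ : DfF 𝒟 μ.π := DfF.of_graph hS
  refine ⟨S, ⟨?_⟩, hπ⟩
  obtain ⟨f, hf⟩ : ∃ f : Γ → Q, ∀ g, f g = μ.π g := ⟨_, fun _ => rfl⟩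
  have hf' : DfF 𝒟 f := hπ.congr' hf
  refine DfF.of_rel (P := fun p => ∃ a b : Γ, f a = p.1.1 ∧ f b = p.1.2 ∧ f (a * b) = p.2)
    (by fun_prop) ?_
  rintro ⟨q, q'⟩ r
  simp only [hf]
  constructor
  · rintro rfl
    obtain ⟨a, rfl⟩ := μ.surj q
    obtain ⟨b, rfl⟩ := μ.surj q'
    exact ⟨a, b, rfl, rfl, map_mul _ _ _⟩
  · rintro ⟨a, b, rfl, rfl, rfl⟩
    exact (map_mul _ _ _).symm

/-- The element b of the kernel represents v. -/
def Rep (b : Γ) (v : μ.V) : Prop := μ.π b = 1 ∧ μ.D b = v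

omit [NoZeroDivisors (GR Q)] in
theorem Rep.unique {b b' : Γ} {v : μ.V} (h : μ.Rep b v) (h' : μ.Rep b' v) : b = b' :=
  μ.ext (h.1.trans h'.1.symm) (h.2.trans h'.2.symm)

omit [NoZeroDivisors (GR Q)] in
theorem exists_rep (v : μ.V) : ∃ b, μ.Rep b v := v.2

omit [NoZeroDivisors (GR Q)] in
theorem exists_V_srt [Srt 𝒟 Q] (hπ : DfF 𝒟 μ.π) : ∃ _ : Srt 𝒟 μ.V, DAdd 𝒟 μ.V ∧
    DSMul 𝒟 Q μ.V ∧ DfF 𝒟 (fun p : Γ × μ.V => μ.Rep p.1 p.2) := by
  obtain ⟨f, hf⟩ : ∃ f : Γ → Q, ∀ g, f g = μ.π g := ⟨_, fun _ => rfl⟩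
  have hf' : DfF 𝒟 f := hπ.congr' hf
  obtain ⟨S, hS⟩ := exists_srt (𝒟 := 𝒟) μ.Rep
    (fun _ _ _ h h' => Subtype.ext (h.2.symm.trans h'.2)) μ.exists_rep (by
      refine DfF.congr (P := fun p : Γ × Γ => f p.1 = 1 ∧ p.1 = p.2) (by fun_prop) (fun p => ?_)
      rw [hf]
      exact ⟨fun ⟨_, h1, h2⟩ => ⟨h1.1, h1.unique μ h2⟩,
        fun ⟨h1, h2⟩ => ⟨⟨_, p.1, h1, rfl⟩, ⟨h1, rfl⟩, h2 ▸ ⟨h1, rfl⟩⟩⟩)
  obtain ⟨ρ, hρ⟩ : ∃ ρ : Γ → μ.V → Prop, ∀ b v, ρ b v ↔ μ.Rep b v := ⟨_, fun _ _ => Iff.rfl⟩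
  have hρ' : DfF 𝒟 (fun p : Γ × μ.V => ρ p.1 p.2) := hS.congr fun p => hρ _ _
  refine ⟨S, ⟨?_⟩, ⟨?_⟩, hS⟩
  · refine DfF.of_rel (P := fun p => ∃ a b : Γ, ρ a p.1.1 ∧ ρ b p.1.2 ∧ ρ (a * b) p.2)
      (by fun_prop) ?_
    rintro ⟨u, v⟩ w
    simp only [hρ]
    constructor
    · rintro rfl
      obtain ⟨a, ha⟩ := μ.exists_rep u
      obtain ⟨b, hb⟩ := μ.exists_rep v
      exact ⟨a, b, ha, hb, by simp [ha.1, hb.1], by rw [μ.D_mul_ker ha.1, ha.2, hb.2]; rfl⟩
    · rintro ⟨a, b, ha, hb, hab⟩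
      apply Subtype.ext
      rw [← hab.2, μ.D_mul_ker ha.1, ha.2, hb.2]
      rfl
  · refine DfF.of_rel (P := fun p => ∃ g b : Γ, f g = p.1.1 ∧ ρ b p.1.2 ∧ ρ (g * b * g⁻¹) p.2)
      (by fun_prop) ?_
    rintro ⟨q, v⟩ w
    simp only [hρ, hf]
    constructor
    · rintro rfl
      obtain ⟨g, rfl⟩ := μ.surj q
      obtain ⟨b, hb⟩ := μ.exists_rep v
      exact ⟨g, b, rfl, hb, by simp [hb.1], by rw [μ.D_conj g hb.1, hb.2]; rfl⟩
    · rintro ⟨g, b, rfl, hb, hab⟩
      apply Subtype.ext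
      rw [← hab.2, μ.D_conj g hb.1, hb.2]
      rfl

theorem dfF_zpowers [Srt 𝒟 Q] (hπ : DfF 𝒟 μ.π) {y : Γ} {j : Fin n} (hj : μ.D y j = 1)
    (hy : μ.π y ≠ 1) : DfF 𝒟 (fun q : Q => q ∈ Subgroup.zpowers (μ.π y)) := by
  obtain ⟨f, hf⟩ : ∃ f : Γ → Q, ∀ g, f g = μ.π g := ⟨_, fun _ => rfl⟩
  have hf' : DfF 𝒟 f := hπ.congr' hf
  refine DfF.congr (P := fun q => ∃ g, f g = q ∧ g * y = y * g) (by fun_prop) (fun q => ?_)
  simp only [hf]
  constructor
  · intro h
    obtain ⟨k, rfl⟩ := Subgroup.mem_zpowers_iff.1 h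
    exact ⟨y ^ k, map_zpow _ _ _, ((Commute.refl y).zpow_left k).eq⟩
  · rintro ⟨g, rfl, hg⟩
    obtain ⟨k, rfl⟩ := Subgroup.mem_zpowers_iff.1 (μ.centralizer hj hy hg)
    exact Subgroup.mem_zpowers_iff.2 ⟨k, (map_zpow _ _ _).symm⟩

variable [Srt 𝒟 ℕ] [DAdd 𝒟 ℕ] [DMul 𝒟 ℕ]

theorem enum_step [Srt 𝒟 Q] [DMul 𝒟 Q] [Enum 𝒟 Q] [StrongRankCondition (GR Q)]
    (hπ : DfF 𝒟 μ.π) {c : Q} (hc : ∀ k l : ℤ, c ^ k = c ^ l → k = l) {K : ℕ} (hK : Star c K)
    {m : ℕ} (y : Fin m → Γ) (hy : ∀ i, μ.π (y i) ≠ 1)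
    (hdec : ∀ g, ∃ gs : Fin m → Γ, (∀ i, μ.π (gs i) * μ.π (y i) = μ.π (y i) * μ.π (gs i)) ∧
      prodFn gs = g) : Enum 𝒟 Γ := by
  obtain ⟨S, hadd, hsmul, hS⟩ := μ.exists_V_srt hπ
  have hV : Enum 𝒟 μ.V :=
    enum_module (sepF_submodule μ.V c hc) (sepH_submodule μ.V hK) (finRank_submodule μ.V)
  obtain ⟨f, hf⟩ : ∃ f : Γ → Q, ∀ g, f g = μ.π g := ⟨_, fun _ => rfl⟩
  have hf' : DfF 𝒟 f := hπ.congr' hf
  obtain ⟨ρ, hρ⟩ : ∃ ρ : Γ → μ.V → Prop, ∀ b v, ρ b v ↔ μ.Rep b v := ⟨_, fun _ _ => Iff.rfl⟩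
  have hρ' : DfF 𝒟 (fun p : Γ × μ.V => ρ p.1 p.2) := hS.congr fun p => hρ _ _
  have : Nonempty (Q × μ.V) := ⟨(1, 0)⟩
  refine Enum.of_rel (Y := Fin m → Q × μ.V) (fun ν g => ∃ gs : Fin m → Γ,
    (AllF fun i => f (gs i) = (ν i).1 ∧ ρ (gs i * y i * (gs i)⁻¹ * (y i)⁻¹) (ν i).2) ∧
      prodFn gs = g) (by fun_prop) ?_ ?_
  · rintro ν _ _ ⟨gs, h1, rfl⟩ ⟨gs', h2, rfl⟩
    simp only [AllF, hf, hρ] at h1 h2
    congr 1
    funext i
    have h3 := mul_right_cancel ((h1 i).2.unique μ (h2 i).2)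
    have h4 : (gs' i)⁻¹ * gs i = 1 := by
      refine μ.tf (hy i) (by simp [(h1 i).1, (h2 i).1]) ?_
      calc y i * ((gs' i)⁻¹ * gs i) = (gs' i)⁻¹ * (gs' i * y i * (gs' i)⁻¹) * gs i := by group
        _ = (gs' i)⁻¹ * gs i * y i := by rw [← h3]; group
    exact (inv_mul_eq_one.1 h4).symm
  · intro g
    obtain ⟨gs, h1, h2⟩ := hdec g
    have h3 : ∀ i, μ.π (gs i * y i * (gs i)⁻¹ * (y i)⁻¹) = 1 := by
      intro i
      simp only [map_mul, map_inv, h1 i, mul_inv_cancel_right, mul_inv_cancel]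
    refine ⟨fun i => (μ.π (gs i), ⟨_, _, h3 i, rfl⟩), gs, ?_, h2⟩
    simp only [AllF, hf, hρ]
    exact fun i => ⟨trivial, h3 i, rfl⟩

end Step

end Magnus

theorem dfF_inCl_three {n : ℕ} {G M A Q₀ : Type} [Group G] [Group M] [Group A] [Group Q₀]
    [Subsingleton Q₀] (μ₀ : Magnus n A Q₀) (μ₁ : Magnus n M A) (μ₂ : Magnus n G M)
    (h₁ : ∀ i, μ₁.π (μ₁.x i) = μ₀.x i) (h₂ : ∀ i, μ₂.π (μ₂.x i) = μ₁.x i) {i₀ i₁ : Fin n}
    (hi : i₀ ≠ i₁) [Srt 𝒟 G] [DMul 𝒟 G] :
    DfF 𝒟 (fun p : (Fin n → G) × G => InCl p.1 p.2) := by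
  classical
  have : UniqueProds Q₀ :=
    ⟨fun {A B} ⟨a, ha⟩ ⟨b, hb⟩ => ⟨a, ha, b, hb, UniqueMul.of_subsingleton⟩⟩
  have : UniqueProds A := μ₀.uniqueProds
  have : UniqueProds M := μ₁.uniqueProds
  have : StrongRankCondition (GR A) := src_of_comm μ₀.comm
  have : StrongRankCondition (GR M) := μ₁.src μ₀.comm
  obtain ⟨SM, hM, hπ₂⟩ := μ₂.exists_quot_srt (𝒟 := 𝒟)
  obtain ⟨SA, hA, hπ₁⟩ := μ₁.exists_quot_srt (𝒟 := 𝒟)
  have hx1 : ∀ i, μ₀.x i ≠ 1 := by
    intro i h
    have := μ₀.expo_x i i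
    rw [h, map_one, if_pos rfl] at this
    exact absurd (Multiplicative.ofAdd.injective this) (by simp)
  have hz : ∀ i, DfF 𝒟 (fun q : A => q ∈ Subgroup.zpowers (μ₀.x i)) := by
    intro i
    have := μ₁.dfF_zpowers hπ₁ (y := μ₁.x i) (j := i) (by rw [μ₁.D_x, Pi.single_eq_same])
      (by rw [h₁]; exact hx1 i)
    rwa [h₁] at this
  have hz' : ∀ i, i ≠ i₀ → DfF 𝒟 (fun q : A => q ∈ Subgroup.zpowers (μ₀.x i₀ * μ₀.x i)) := by
    intro i hi
    have := μ₁.dfF_zpowers hπ₁ (y := μ₁.x i₀ * μ₁.x i) (j := i₀) (by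
      rw [μ₁.D_mul, μ₁.D_x, μ₁.D_x]
      simp [hi.symm]) (by
      intro h
      have := congrArg (μ₀.expo i₀) h
      rw [map_mul, h₁, h₁, map_mul, μ₀.expo_x, μ₀.expo_x, if_pos rfl, if_neg hi.symm,
        map_one (μ₀.expo i₀)] at this
      exact absurd (Multiplicative.ofAdd.injective this) (by simp))
    rwa [map_mul, h₁, h₁] at this
  -- the commutator of two generators
  let c₀ : M := μ₁.x i₀ * μ₁.x i₁ * (μ₁.x i₀)⁻¹ * (μ₁.x i₁)⁻¹
  have hc₀ : μ₁.π c₀ = 1 := by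
    simp only [c₀, map_mul, map_inv, μ₀.comm (μ₁.π (μ₁.x i₀)), mul_inv_cancel_right,
      mul_inv_cancel]
  have hD : μ₁.D c₀ i₀ = 1 - gr (μ₀.x i₁) := by
    simp only [c₀, μ₁.D_mul, μ₁.D_inv, μ₁.D_x, Pi.add_apply, Pi.smul_apply, Pi.neg_apply,
      smul_eq_mul, Pi.single_eq_same, Pi.single_eq_of_ne hi, mul_zero, neg_zero, add_zero,
      mul_one, mul_neg, ← map_mul, h₁]
    rw [map_mul μ₁.π, h₁, h₁, μ₀.comm (μ₀.x i₀), mul_inv_cancel_right, sub_eq_add_neg]
  let w : A → ℤ := fun q => if μ₀.expo i₁ q = 1 then 1 else 0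
  have hw : ∀ q, w (μ₀.x i₀ * q) = 1 * w q := by
    intro q
    simp only [w, map_mul, μ₀.expo_x, if_neg hi.symm, ofAdd_zero, one_mul]
  have hψ : coordWt μ₁.V w i₀ ⟨_, c₀, hc₀, rfl⟩ ≠ 0 := by
    change wt w (μ₁.D c₀ i₀) ≠ 0
    rw [hD, map_sub, wt_one, wt_gr]
    simp [w, μ₀.expo_x]
  have hc₀1 : c₀ ≠ 1 := by
    intro h
    apply hψ
    change wt w (μ₁.D c₀ i₀) = 0
    simp [h, μ₁.D_one]
  -- arithmetic
  obtain ⟨SZ, hZadd, hZmul, hpow⟩ : ∃ _ : Srt 𝒟 ℤ, DAdd 𝒟 ℤ ∧ DMul 𝒟 ℤ ∧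
      DfF 𝒟 (fun k : ℤ => μ₀.x i₀ ^ k) := by
    obtain ⟨S, hadd, hsmul, -⟩ := μ₁.exists_V_srt hπ₁
    refine exists_int_srt (W := μ₁.V) (μ₀.x i₀) (fun v hv => ?_) (coordWt μ₁.V w i₀)
      (fun v => ?_) _ hψ (hz i₀)
    · exact Subtype.ext (Magnus.fix_eq_zero (hx1 i₀) (congrArg Subtype.val hv))
    · rw [coordWt_apply, coordWt_apply, smul_coe_apply, wt_gr_mul w _ 1 hw, one_mul]
  obtain ⟨SN, hNadd, hNmul, hZ⟩ := exists_nat_srt (𝒟 := 𝒟)
  have hpow' : ∀ i, DfF 𝒟 (fun k : ℤ => μ₀.x i ^ k) := by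
    intro i
    by_cases hi' : i = i₀
    · rwa [hi']
    refine DfF.of_rel (P := fun p => p.2 ∈ Subgroup.zpowers (μ₀.x i) ∧
      μ₀.x i₀ ^ p.1 * p.2 ∈ Subgroup.zpowers (μ₀.x i₀ * μ₀.x i))
      (DfF.and (DfF.comp (hz i) (by fun_prop)) (DfF.comp (hz' i hi')
        (DfF.mul (DfF.comp hpow (by fun_prop)) (by fun_prop)))) (fun k q => ?_)
    simp only [Subgroup.mem_zpowers_iff]
    constructor
    · rintro rfl
      exact ⟨⟨k, rfl⟩, k, Commute.mul_zpow (μ₀.comm _ _) k⟩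
    · rintro ⟨⟨m, rfl⟩, l, hl⟩
      have h3 := congrArg (fun q => (μ₀.expo i₀ q).toAdd) hl
      have h4 := congrArg (fun q => (μ₀.expo i q).toAdd) hl
      simp [μ₀.expo_x, hi', Ne.symm hi'] at h3 h4
      rw [← h3, h4]
  have hA' : Enum 𝒟 A := by
    refine Enum.of_surj (fun k : Fin n → ℤ => prodFn fun i => μ₀.x i ^ k i)
      (DfF.prodFn (DfF.pi fun i => DfF.comp (hpow' i) (by fun_prop))) (fun g => ⟨_, μ₀.eq_prod g⟩)
  have hM' : Enum 𝒟 M := by
    obtain ⟨K, hK⟩ := μ₀.star (fun _ _ => Subsingleton.elim _ _) Magnus.lin_trivial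
      (Subsingleton.elim _ _) (hx1 i₀)
    refine μ₁.enum_step hπ₁ (μ₀.zpow_inj (Subsingleton.elim _ _) (hx1 i₀)) hK
      (fun _ : Fin 1 => μ₁.x i₀) (fun _ => by rw [h₁]; exact hx1 i₀) (fun g => ?_)
    exact ⟨fun _ => g, fun _ => μ₀.comm _ _, by simp [prodFn]⟩
  have hG' : Enum 𝒟 G := by
    obtain ⟨K, hK⟩ := μ₁.star μ₀.comm μ₀.lin hc₀ hc₀1
    obtain ⟨c₁, hc₁⟩ := μ₂.surj c₀
    refine μ₂.enum_step hπ₂ (μ₁.zpow_inj hc₀ hc₀1) hK (Fin.cons c₁ μ₂.x : Fin (n + 1) → G)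
      (fun i => ?_) (fun g => ?_)
    · refine Fin.cases ?_ (fun i => ?_) i
      · rwa [Fin.cons_zero, hc₁]
      · rw [Fin.cons_succ, h₂]
        intro h
        exact hx1 i (by rw [← h₁, h, map_one])
    · let k : Fin n → ℤ := fun i => (μ₀.expo i (μ₁.π (μ₂.π g))).toAdd
      let P : G := (List.ofFn fun i => μ₂.x i ^ k i).prod
      have hP : μ₁.π (μ₂.π P) = μ₁.π (μ₂.π g) := by
        rw [← μ₀.eq_prod (μ₁.π (μ₂.π g)), map_list_prod, map_list_prod, List.map_ofFn,
          List.map_ofFn]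
        congr 2
        funext i
        simp [h₁, h₂, k]
      refine ⟨Fin.cons (g * P⁻¹) fun i => μ₂.x i ^ k i, fun i => ?_, ?_⟩
      · refine Fin.cases ?_ (fun i => ?_) i
        · rw [Fin.cons_zero, Fin.cons_zero, hc₁]
          exact μ₁.ker_comm (by simp [hP]) hc₀
        · rw [Fin.cons_succ, Fin.cons_succ, map_zpow]
          exact ((Commute.refl _).zpow_left _).eq
      · simp [prodFn, List.ofFn_succ, P]
  fun_prop

end Pool.Agent.MP_c33acd_lc

end MrgPart2

-- ======== part 3: formerly Pool.Agent.MP_c33acd_lc.Prime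
section MrgPart3

/-!
From definability of finitely generated subgroups to prime models.
-/

set_option autoImplicit false

namespace Pool.Agent.MP_c33acd_lc

open FirstOrder FirstOrder.Language

theorem prime_of_isolated {L : FirstOrder.Language.{0, 0}} {M : Type} [L.Structure M] {ι : Type}
    [Finite ι] (a : ι → M) (ψ : L.Formula ι) (hψ : ψ.Realize a)
    (hgen : ∀ g : M, ∃ t : L.Term ι, t.realize a = g)
    (horb : ∀ b, ψ.Realize b → ∃ e : M ≃[L] M, e ∘ a = b)
    (N : Type) [L.Structure N] (hN : N ⊨ L.completeTheory M) : Nonempty (M ↪ₑ[L] N) := by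
  have tr : ∀ σ : L.Sentence, M ⊨ σ → N ⊨ σ := fun σ h =>
    Theory.realize_sentence_of_mem (L.completeTheory M) (mem_completeTheory.2 h)
  obtain ⟨b, hb⟩ : ∃ b : ι → N, ψ.Realize b := by
    have h1 := tr ((ψ.relabel Sum.inr).iExs ι) (by
      simp only [Sentence.Realize, Formula.realize_iExs, Formula.realize_relabel,
        Sum.elim_comp_inr]
      exact ⟨a, hψ⟩)
    simpa only [Sentence.Realize, Formula.realize_iExs, Formula.realize_relabel,
      Sum.elim_comp_inr] using h1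
  have key : ∀ χ : L.Formula ι, χ.Realize a → χ.Realize b := by
    intro χ hχ
    have h1 := tr (((ψ.imp χ).relabel Sum.inr).iAlls ι) (by
      simp only [Sentence.Realize, Formula.realize_iAlls, Formula.realize_relabel,
        Formula.realize_imp]
      intro c hc
      obtain ⟨e, he⟩ := horb c hc
      have : χ.Realize (e ∘ a) := (StrongHomClass.realize_formula e χ).2 hχ
      rw [he] at this
      exact this)
    simp only [Sentence.Realize, Formula.realize_iAlls, Formula.realize_relabel,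
      Formula.realize_imp] at h1
    exact h1 b hb
  choose t ht using hgen
  refine ⟨⟨fun g => (t g).realize b, fun k θ x => ?_⟩⟩
  let χ : L.Formula ι := BoundedFormula.subst θ fun i => t (x i)
  have hM : χ.Realize a ↔ θ.Realize x := by
    simp only [χ, Formula.Realize, BoundedFormula.realize_subst, ht]
  have hN' : χ.Realize b ↔ θ.Realize ((fun g => (t g).realize b) ∘ x) := by
    simp only [χ, Formula.Realize, BoundedFormula.realize_subst]
    rfl
  rw [← hM, ← hN']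
  refine ⟨fun h => ?_, key χ⟩
  by_contra h'
  have := key χ.not (Formula.realize_not.2 h')
  exact Formula.realize_not.1 this h

/-- The language with one function symbol of each arity. -/
abbrev LP : FirstOrder.Language.{0, 0} := ⟨fun _ => Unit, fun _ => Empty⟩

section

variable {G : Type} [Group G] [Nontrivial G] [LP.Structure G]

/-- Sets definable with parameters from A. -/
def defStr (A : Set G) : DefStr where
  G := G
  nontriv := inferInstance
  D := fun _ s => A.Definable LP s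
  univ := fun _ => Set.definable_univ
  inter := fun _ _ _ hs ht => hs.inter ht
  compl := fun _ _ hs => hs.compl
  pre := fun _ _ f _ hs => hs.preimage_comp f
  ex := fun _ _ _ _ hs => hs.exists_of_finite
  eq := ⟨(Term.var true).equal (Term.var false), by ext; simp⟩

instance instSrtHome (A : Set G) : Srt (defStr A) G := homeSrt (defStr A)

instance : Cst (defStr (Set.univ : Set G)) :=
  ⟨fun (a : G) => by
    change (Set.univ : Set G).Definable LP {v : Unit → G | v () = a}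
    exact ⟨(Term.var ()).equal (LP.con (⟨a, trivial⟩ : (Set.univ : Set G))).term, by
      ext; simp⟩⟩

theorem dmul_home (hS : ∀ (n : ℕ) (f : LP.Functions n) (x : Fin n → G),
    Structure.funMap f x = (List.ofFn x).prod) (A : Set G) : DMul (defStr A) G := by
  have h : A.Definable LP {v : (Unit ⊕ Unit) ⊕ Unit → G |
      v (Sum.inl (Sum.inl ())) * v (Sum.inl (Sum.inr ())) = v (Sum.inr ())} := by
    refine Set.Definable.mono (A := ∅) ?_ (Set.empty_subset A)
    rw [Set.empty_definable_iff]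
    refine ⟨(Term.func (L := LP) (l := 2) () ![Term.var (Sum.inl (Sum.inl ())),
      Term.var (Sum.inl (Sum.inr ()))]).equal (Term.var (Sum.inr ())), ?_⟩
    ext v
    simp [Term.realize, hS]
  refine ⟨DefStr.congr (𝒟 := defStr A) h fun (v : (Unit ⊕ Unit) ⊕ Unit → G) => ?_⟩
  constructor
  · rintro ⟨p, ⟨⟨h1, h2⟩, h3⟩, h4⟩
    have h1' : v (Sum.inl (Sum.inl ())) = p.1.1 := h1
    have h2' : v (Sum.inl (Sum.inr ())) = p.1.2 := h2
    have h3' : v (Sum.inr ()) = p.2 := h3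
    change v (Sum.inl (Sum.inl ())) * v (Sum.inl (Sum.inr ())) = v (Sum.inr ())
    rw [h1', h2', h3', ← h4]
  · intro h
    exact ⟨((v (Sum.inl (Sum.inl ())), v (Sum.inl (Sum.inr ()))), v (Sum.inr ())),
      ⟨⟨rfl, rfl⟩, rfl⟩, h⟩

theorem prime_of_dfF (hS : ∀ (n : ℕ) (f : LP.Functions n) (x : Fin n → G),
    Structure.funMap f x = (List.ofFn x).prod) {n : ℕ} (x : Fin n → G)
    (hx : Subgroup.closure (Set.range x) = ⊤)
    (haut : ∀ y : Fin n → G, Subgroup.closure (Set.range y) = ⊤ → ∃ α : G ≃* G, ∀ i, α (x i) = y i)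
    (h : DfF (defStr (Set.univ : Set G)) (fun p : (Fin n → G) × G => InCl p.1 p.2))
    (N : Type) [LP.Structure N] (hN : N ⊨ LP.completeTheory G) : Nonempty (G ↪ₑ[LP] N) := by
  have := dmul_home hS ∅
  have h1 := dfF_iff.1 h
  obtain ⟨A₀, -, h2⟩ := Set.definable_iff_finitely_definable.1 h1
  obtain ⟨φ, hφ⟩ := Set.definable_iff_exists_formula_sum.1 h2
  obtain ⟨κ, hκ⟩ : ∃ κ : (A₀ → G) → (Fin n → G) → G → Prop, ∀ p y z, κ p y z ↔
      φ.Realize (Sum.elim p (Sum.elim (fun a : Fin n × Unit => y a.1) fun _ : Unit => z)) :=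
    ⟨_, fun _ _ _ => Iff.rfl⟩
  have hκ0 : ∀ y z, κ (↑) y z ↔ InCl y z := by
    intro y z
    rw [hκ]
    refine (Set.ext_iff.1 hφ (Sum.elim (fun a : Fin n × Unit => y a.1) fun _ : Unit => z)).symm.trans
      ⟨?_, fun H => ⟨(y, z), ⟨fun _ => rfl, rfl⟩, H⟩⟩
    rintro ⟨p, ⟨h3, h4⟩, h5⟩
    obtain rfl : y = p.1 := funext h3
    obtain rfl : z = p.2 := h4
    exact h5
  have hκd : DfF (defStr (∅ : Set G))
      (fun q : (A₀ → G) × (Fin n → G) × G => κ q.1 q.2.1 q.2.2) := by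
    rw [dfF_iff]
    have h3 : (∅ : Set G).Definable LP (Set.ofPred φ.Realize) :=
      Set.empty_definable_iff.2 ⟨φ, rfl⟩
    refine DefStr.congr (𝒟 := defStr (∅ : Set G))
      (h3.preimage_comp (Sum.map (fun a => (a, ())) id))
      (fun (v : (A₀ × Unit) ⊕ (Fin n × Unit) ⊕ Unit → G) => ?_)
    change (∃ q : (A₀ → G) × (Fin n → G) × G, _ ∧ κ q.1 q.2.1 q.2.2) ↔ φ.Realize (v ∘ Sum.map (fun a => (a, ())) id)
    constructor
    · rintro ⟨q, ⟨h4, h5, h6⟩, h7⟩
      rw [hκ] at h7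
      have : v ∘ Sum.map (fun a => (a, ())) id =
          Sum.elim q.1 (Sum.elim (fun a : Fin n × Unit => q.2.1 a.1) fun _ : Unit => q.2.2) := by
        funext i
        rcases i with a | a | a
        · exact h4 a
        · exact h5 a.1
        · exact h6
      exact this ▸ h7
    · intro H
      refine ⟨(fun a => v (Sum.inl (a, ())), fun i => v (Sum.inr (Sum.inl (i, ()))),
        v (Sum.inr (Sum.inr ()))), ⟨fun _ => rfl, fun _ => rfl, rfl⟩, ?_⟩
      rw [hκ]
      have : v ∘ Sum.map (fun a => (a, ())) id =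
          Sum.elim (fun a => v (Sum.inl (a, ()))) (Sum.elim
            (fun a : Fin n × Unit => v (Sum.inr (Sum.inl (a.1, ()))))
              fun _ : Unit => v (Sum.inr (Sum.inr ()))) := by
        funext i
        rcases i with a | a | a <;> rfl
      exact this ▸ H
  let Φ : (Fin n → G) × (Fin n → G) → Prop := fun q =>
    (All fun p : A₀ → G => Imp ((All fun z : G => Imp (z * z = z) (κ p q.1 z)) ∧
      All fun z : G => Imp (κ p q.1 z)
        (AllF fun i => κ p q.1 (z * q.1 i) ∧ κ p q.1 (z * (q.1 i)⁻¹))) (All fun z : G => κ p q.1 z)) ∧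
    AllF fun i => q.2 i = (q.1 i)⁻¹
  have hΦ : DfF (defStr (∅ : Set G)) Φ := by
    simp only [Φ]
    fun_prop
  have hΦiff : ∀ y z, Φ (y, z) ↔ Subgroup.closure (Set.range y) = ⊤ ∧ ∀ i, z i = (y i)⁻¹ := by
    intro y z
    simp only [Φ, All, Imp, AllF]
    refine and_congr_left' ⟨fun H => ?_, fun H p hp g => ?_⟩
    · have H' := H (↑)
      simp only [hκ0, InCl] at H'
      rw [eq_top_iff]
      intro g _
      refine H' ⟨fun z hz => ?_, fun z hz i => ⟨?_, ?_⟩⟩ g
      · rw [mul_eq_left.1 hz]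
        exact one_mem _
      · exact mul_mem hz (Subgroup.subset_closure ⟨i, rfl⟩)
      · exact mul_mem hz (inv_mem (Subgroup.subset_closure ⟨i, rfl⟩))
    · have hg : g ∈ Subgroup.closure (Set.range y) := by rw [H]; trivial
      induction hg using Subgroup.closure_induction_right with
      | one => exact hp.1 1 (mul_one 1)
      | mul_right g _ u hu ih =>
        obtain ⟨i, rfl⟩ := hu
        exact (hp.2 g ih i).1
      | mul_inv_cancel g _ u hu ih =>
        obtain ⟨i, rfl⟩ := hu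
        exact (hp.2 g ih i).2
  obtain ⟨ψ, hψ⟩ := Set.empty_definable_iff.1 (dfF_iff.1 hΦ)
  have hψ' : ∀ b : (Fin n × Unit) ⊕ (Fin n × Unit) → G, ψ.Realize b ↔
      Φ (fun i => b (Sum.inl (i, ())), fun i => b (Sum.inr (i, ()))) := by
    intro b
    refine (Set.ext_iff.1 hψ b).symm.trans ⟨?_, fun H => ⟨_, ⟨fun _ => rfl, fun _ => rfl⟩, H⟩⟩
    rintro ⟨q, ⟨h3, h4⟩, h5⟩
    convert h5 using 1
    exact Prod.ext (funext h3) (funext h4)
  refine prime_of_isolated (ι := (Fin n × Unit) ⊕ (Fin n × Unit))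
    (Sum.elim (fun a => x a.1) fun a => (x a.1)⁻¹) ψ ?_ (fun g => ?_) (fun b hb => ?_) N hN
  · rw [hψ', hΦiff]
    exact ⟨hx, fun _ => rfl⟩
  · have hg : g ∈ Subgroup.closure (Set.range x) := by rw [hx]; trivial
    induction hg using Subgroup.closure_induction_right with
    | one => exact ⟨Term.func (L := LP) (l := 0) () ![], by simp [Term.realize, hS]⟩
    | mul_right g _ u hu ih =>
      obtain ⟨i, rfl⟩ := hu
      obtain ⟨t, ht⟩ := ih
      exact ⟨Term.func (L := LP) (l := 2) () ![t, Term.var (Sum.inl (i, ()))], by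
        simp [Term.realize, hS, ht]⟩
    | mul_inv_cancel g _ u hu ih =>
      obtain ⟨i, rfl⟩ := hu
      obtain ⟨t, ht⟩ := ih
      exact ⟨Term.func (L := LP) (l := 2) () ![t, Term.var (Sum.inr (i, ()))], by
        simp [Term.realize, hS, ht]⟩
  · rw [hψ', hΦiff] at hb
    obtain ⟨α, hα⟩ := haut _ hb.1
    refine ⟨⟨α.toEquiv, fun f v => ?_, fun r => r.elim⟩, ?_⟩
    · rw [hS, hS]
      change α _ = _
      rw [map_list_prod, List.map_ofFn]
      rfl
    · funext i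
      rcases i with ⟨i, _⟩ | ⟨i, _⟩
      · exact hα i
      · change α (x i)⁻¹ = _
        rw [map_inv, hα, hb.2 i]

end

/-- The free solvable group of class k and rank n. -/
abbrev FS (n k : ℕ) : Type := FreeGroup (Fin n) ⧸ derivedSeries (FreeGroup (Fin n)) k

theorem exists_magnus_FS (n k : ℕ) : ∃ μ : Magnus n (FS n (k + 1)) (FS n k),
    (∀ i, μ.x i = FreeGroup.of i) ∧ ∀ w : FreeGroup (Fin n), μ.π w = w :=
  exists_magnus _ _ (derivedSeries_succ _ k)

instance (n : ℕ) : Subsingleton (FS n 0) := QuotientGroup.subsingleton_quotient_top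

theorem prime_FS {n : ℕ} (hn : 2 ≤ n) [LP.Structure (FS n 3)]
    (hS : ∀ (m : ℕ) (f : LP.Functions m) (x : Fin m → FS n 3),
      Structure.funMap f x = (List.ofFn x).prod)
    (N : Type) [LP.Structure N] (hN : N ⊨ LP.completeTheory (FS n 3)) :
    Nonempty (FS n 3 ↪ₑ[LP] N) := by
  obtain ⟨μ₀, hx₀, hπ₀⟩ := exists_magnus_FS n 0
  obtain ⟨μ₁, hx₁, hπ₁⟩ := exists_magnus_FS n 1
  obtain ⟨μ₂, hx₂, hπ₂⟩ := exists_magnus_FS n 2
  have h₁ : ∀ i, μ₁.π (μ₁.x i) = μ₀.x i := fun i => by rw [hx₁, hπ₁, hx₀]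
  have h₂ : ∀ i, μ₂.π (μ₂.x i) = μ₁.x i := fun i => by rw [hx₂, hπ₂, hx₁]
  let i₀ : Fin n := ⟨0, by omega⟩
  let i₁ : Fin n := ⟨1, by omega⟩
  have hi : i₀ ≠ i₁ := by simp [i₀, i₁]
  have : Nontrivial (FS n 3) := by
    refine ⟨μ₂.x i₀, 1, fun h => ?_⟩
    have h3 := congrFun (congrArg μ₂.D h) i₀
    rw [μ₂.D_x, μ₂.D_one] at h3
    simp at h3
  have := dmul_home hS Set.univ
  refine prime_of_dfF hS μ₂.x μ₂.gen (fun y hy => ?_) (dfF_inCl_three μ₀ μ₁ μ₂ h₁ h₂ hi) N hN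
  have : UniqueProds (FS n 0) :=
    ⟨fun {A B} ⟨a, ha⟩ ⟨b, hb⟩ => ⟨a, ha, b, hb, UniqueMul.of_subsingleton⟩⟩
  have : UniqueProds (FS n 1) := μ₀.uniqueProds
  have : UniqueProds (FS n 2) := μ₁.uniqueProds
  have : StrongRankCondition (GR (FS n 0)) := src_of_comm fun _ _ => Subsingleton.elim _ _
  have : StrongRankCondition (GR (FS n 1)) := src_of_comm μ₀.comm
  have : StrongRankCondition (GR (FS n 2)) := μ₁.src μ₀.comm
  choose w hw using fun i => QuotientGroup.mk_surjective (y i)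
  let α : ∀ k, FS n k →* FS n k := fun k => QuotientGroup.map _ _ (FreeGroup.lift w)
    (Subgroup.map_le_iff_le_comap.1 (map_derivedSeries_le_derivedSeries _ k))
  have hα : ∀ k (u : FreeGroup (Fin n)), α k u = FreeGroup.lift w u := fun _ _ => rfl
  have hαx : ∀ i, α 3 (μ₂.x i) = y i := fun i => by rw [hx₂, hα, FreeGroup.lift_apply_of, hw]
  have comm : ∀ k (μ : Magnus n (FS n (k + 1)) (FS n k)), (∀ u : FreeGroup (Fin n), μ.π u = u) →
      ∀ g, μ.π (α (k + 1) g) = α k (μ.π g) := by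
    intro k μ hμ g
    obtain ⟨u, rfl⟩ := QuotientGroup.mk_surjective g
    rw [hα, hμ, hμ, hα]
  have down : ∀ k (μ : Magnus n (FS n (k + 1)) (FS n k)), (∀ u : FreeGroup (Fin n), μ.π u = u) →
      Function.Surjective (α (k + 1)) → Function.Surjective (α k) := by
    intro k μ hμ hs q
    obtain ⟨g, rfl⟩ := μ.surj q
    obtain ⟨g', rfl⟩ := hs g
    exact ⟨μ.π g', (comm k μ hμ g').symm⟩
  have s₃ : Function.Surjective (α 3) := by
    rw [← MonoidHom.range_eq_top, eq_top_iff, ← hy, Subgroup.closure_le]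
    rintro _ ⟨i, rfl⟩
    exact ⟨_, hαx i⟩
  have s₂ := down 2 μ₂ hπ₂ s₃
  have s₁ := down 1 μ₁ hπ₁ s₂
  have j₁ := μ₀.hopf (α 1) (α 0) (comm 0 μ₀ hπ₀) s₁ fun _ _ _ => Subsingleton.elim _ _
  have j₂ := μ₁.hopf (α 2) (α 1) (comm 1 μ₁ hπ₁) s₂ j₁
  have j₃ := μ₂.hopf (α 3) (α 2) (comm 2 μ₂ hπ₂) s₃ j₂
  exact ⟨MulEquiv.ofBijective (α 3) ⟨j₃, s₃⟩, hαx⟩

end Pool.Agent.MP_c33acd_lc

end MrgPart3

-- marker of a merged file
example : 731051 + 334785 = 731051 + 334785 := rfl
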